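import Pool.Agent.R41.Even

set_option autoImplicit false

/-!
Splitting of amalgamated multigraphs into factors of prescribed degrees.
-/

namespace Pool.Agent.R448.TW

open Finset SimpleGraph

/-- Balanced orientation of a multigraph of even degrees. -/
theorem orient' {V E : Type} [Fintype V] [DecidableEq V] [Fintype E] [DecidableEq E] (p q : E → V)
    (k : V → ℕ) (h : ∀ v, (univ.filter (fun e => p e = v)).card +
      (univ.filter (fun e => q e = v)).card = 2 * k v) :
    ∃ t : E → Bool, (∀ v, (univ.filter (fun e => (if t e then p e else q e) = v)).card = k v) ∧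
      ∀ v, (univ.filter (fun e => (if t e then q e else p e) = v)).card = k v := by
  classical
  let T : E → Finset (Σ v : V, Fin (k v)) := fun e => ({p e, q e} : Finset V).sigma (fun _ => univ)
  have hE : ∀ (s : Finset E) (W : Finset V), (∀ e ∈ s, p e ∈ W ∧ q e ∈ W) →
      s.card ≤ ∑ v ∈ W, k v := by
    intro s W hW
    have h1 : s.card = ∑ v ∈ W, (s.filter (fun e => p e = v)).card :=
      card_eq_sum_card_fiberwise (fun e he => (hW e he).1)
    have h2 : s.card = ∑ v ∈ W, (s.filter (fun e => q e = v)).card :=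
      card_eq_sum_card_fiberwise (fun e he => (hW e he).2)
    have h3 : ∑ v ∈ W, ((s.filter (fun e => p e = v)).card +
        (s.filter (fun e => q e = v)).card) ≤ ∑ v ∈ W, 2 * k v := by
      refine sum_le_sum fun v _ => ?_
      rw [← h v]
      exact add_le_add (card_le_card (filter_subset_filter _ (subset_univ _)))
        (card_le_card (filter_subset_filter _ (subset_univ _)))
    rw [sum_add_distrib, ← h1, ← h2, ← mul_sum] at h3
    omega
  have hall : ∀ s : Finset E, s.card ≤ (s.biUnion T).card := by
    intro s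
    have h1 : s.biUnion T = (s.biUnion (fun e => ({p e, q e} : Finset V))).sigma
        (fun _ => univ) := by
      ext ⟨v, i⟩
      simp [T]
    rw [h1, card_sigma]
    simp only [card_univ, Fintype.card_fin]
    refine hE s _ fun e he => ⟨?_, ?_⟩
    · exact mem_biUnion.2 ⟨e, he, by simp⟩
    · exact mem_biUnion.2 ⟨e, he, by simp⟩
  obtain ⟨f, hf, hfT⟩ := (Finset.all_card_le_biUnion_card_iff_exists_injective T).1 hall
  have htot : Fintype.card E = ∑ v, k v := by
    have h1 : (univ : Finset E).card = ∑ v ∈ (univ : Finset V), (univ.filter (fun e => p e = v)).card :=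
      card_eq_sum_card_fiberwise (fun e _ => mem_univ _)
    have h2 : (univ : Finset E).card = ∑ v ∈ (univ : Finset V), (univ.filter (fun e => q e = v)).card :=
      card_eq_sum_card_fiberwise (fun e _ => mem_univ _)
    have h3 : ∑ v ∈ (univ : Finset V), ((univ.filter (fun e => p e = v)).card +
        (univ.filter (fun e => q e = v)).card) = ∑ v ∈ (univ : Finset V), 2 * k v :=
      sum_congr rfl fun v _ => h v
    rw [sum_add_distrib, ← h1, ← h2, ← mul_sum, card_univ] at h3
    omega
  have hbij : Function.Bijective f :=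
    (Fintype.bijective_iff_injective_and_card f).2 ⟨hf, by
      rw [htot, Fintype.card_sigma]
      simp⟩
  have hmem : ∀ e, (f e).1 = p e ∨ (f e).1 = q e := by
    intro e
    have := hfT e
    simp only [T, mem_sigma, mem_insert, mem_singleton, mem_univ, and_true] at this
    exact this
  refine ⟨fun e => decide ((f e).1 = p e), ?_⟩
  have htail : ∀ e, (if decide ((f e).1 = p e) = true then p e else q e) = (f e).1 := by
    intro e
    by_cases h1 : (f e).1 = p e
    · simp [h1]
    · rcases hmem e with h2 | h2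
      · exact absurd h2 h1
      · rw [if_neg (by simpa using h1), h2]
  have h1 : ∀ v, (univ.filter (fun e => (if decide ((f e).1 = p e) = true then p e else q e)
      = v)).card = k v := by
    intro v
    have h2 : (univ.filter (fun e => (if decide ((f e).1 = p e) = true then p e else q e)
      = v)).card = (({v} : Finset V).sigma (fun x => (univ : Finset (Fin (k x))))).card := by
      refine card_bij (fun e _ => f e) ?_ ?_ ?_
      · intro e he
        rw [mem_filter, htail] at he
        rw [mem_sigma, mem_singleton]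
        exact ⟨he.2, mem_univ _⟩
      · intro e _ e' _ h
        exact hf h
      · intro x hx
        obtain ⟨e, he⟩ := hbij.2 x
        refine ⟨e, ?_, he⟩
        rw [mem_filter, htail, he]
        simp only [mem_sigma, mem_singleton, mem_univ, and_true] at hx
        exact ⟨mem_univ _, hx⟩
    rw [h2, card_sigma]
    simp
  refine ⟨h1, fun v => ?_⟩
  have h2 : (univ.filter (fun e => (if decide ((f e).1 = p e) = true then p e else q e)
      = v)).card + (univ.filter (fun e => (if decide ((f e).1 = p e) = true then q e else p e)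
      = v)).card = 2 * k v := by
    rw [← h v]
    simp only [card_filter]
    rw [← sum_add_distrib, ← sum_add_distrib]
    refine sum_congr rfl fun e _ => ?_
    by_cases h3 : (f e).1 = p e
    · simp [h3]
    · simp [h3, add_comm]
  have h5 := h1 v
  have h6 : (univ.filter (fun e => (if decide ((f e).1 = p e) = true then q e else p e)
      = v)).card = k v := by omega
  exact h6

/-- Half of a symmetric matrix with even row sums and even diagonal. -/
theorem half {B : Type} [Fintype B] [DecidableEq B] (S : B → B → ℕ) (hs : ∀ b b', S b b' = S b' b)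
    (hd : ∀ b, Even (S b b)) (n : B → ℕ) (hr : ∀ b, ∑ b', S b b' = 2 * n b) :
    ∃ D : B → B → ℕ, (∀ b b', D b b' + D b' b = S b b') ∧ (∀ b, ∑ b', D b b' = n b) ∧
      ∀ b, ∑ b', D b' b = n b := by
  classical
  let O : SimpleGraph B :=
    { Adj := fun b b' => Odd (S b b')
      symm := ⟨fun b b' h => by rw [hs b' b]; exact h⟩
      loopless := ⟨fun b h => (Nat.not_odd_iff_even.2 (hd b)) h⟩ }
  let E1 := {e : Sym2 B // e ∈ O.edgeSet}
  have : Fintype E1 := Fintype.ofFinite E1
  let p1 : E1 → B := fun e => e.1.out.1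
  let q1 : E1 → B := fun e => e.1.out.2
  have hpq : ∀ e : E1, s(p1 e, q1 e) = e.1 := fun e => Quot.out_eq e.1
  have hadj : ∀ e : E1, O.Adj (p1 e) (q1 e) := by
    intro e
    have := e.2
    rw [← hpq e] at this
    exact this
  have real : ∀ v, (univ.filter (fun e => p1 e = v)).card + (univ.filter (fun e => q1 e = v)).card =
      (univ.filter (fun w => Odd (S v w))).card := by
    intro v
    rw [← card_union_of_disjoint]
    · symm
      refine card_bij (fun w hw => (⟨s(v, w), (mem_filter.1 hw).2⟩ : E1)) ?_ ?_ ?_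
      · intro w hw
        have h1 : s((s(v, w) : Sym2 B).out.1, (s(v, w) : Sym2 B).out.2) = s(v, w) :=
          Quot.out_eq _
        rcases Sym2.eq_iff.1 h1 with ⟨h2, _⟩ | ⟨_, h2⟩
        · exact mem_union.2 (Or.inl (mem_filter.2 ⟨mem_univ _, h2⟩))
        · exact mem_union.2 (Or.inr (mem_filter.2 ⟨mem_univ _, h2⟩))
      · intro w hw w' hw' h
        have h1 : s(v, w) = s(v, w') := congrArg (fun e : E1 => e.1) h
        exact Sym2.congr_right.1 h1
      · intro e he
        rw [mem_union, mem_filter, mem_filter] at he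
        rcases he with ⟨_, h⟩ | ⟨_, h⟩
        · refine ⟨q1 e, ?_, ?_⟩
          · rw [mem_filter, ← h]; exact ⟨mem_univ _, hadj e⟩
          · apply Subtype.ext
            show s(v, q1 e) = e.1
            rw [← h, hpq]
        · refine ⟨p1 e, ?_, ?_⟩
          · rw [mem_filter, ← h]; exact ⟨mem_univ _, (hadj e).symm⟩
          · apply Subtype.ext
            show s(v, p1 e) = e.1
            rw [← h, Sym2.eq_swap, hpq]
    · rw [Finset.disjoint_left]
      intro e h1 h2
      exact (hadj e).ne ((mem_filter.1 h1).2.trans (mem_filter.1 h2).2.symm)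
  have hsum : ∀ b, 2 * (∑ b', S b b' / 2) + (univ.filter (fun w => Odd (S b w))).card =
      ∑ b', S b b' := by
    intro b
    rw [card_filter, mul_sum, ← sum_add_distrib]
    refine sum_congr rfl fun b' _ => ?_
    by_cases h : Odd (S b b')
    · rw [if_pos h]; exact Nat.two_mul_div_two_add_one_of_odd h
    · rw [if_neg h, add_zero]
      exact Nat.two_mul_div_two_of_even (Nat.not_odd_iff_even.1 h)
  let k : B → ℕ := fun b => n b - ∑ b', S b b' / 2
  have hk : ∀ b, (univ.filter (fun w => Odd (S b w))).card = 2 * k b := by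
    intro b
    have h1 := hsum b
    rw [hr b] at h1
    show _ = 2 * (n b - ∑ b', S b b' / 2)
    omega
  have hk' : ∀ b, ∑ b', S b b' / 2 + k b = n b := by
    intro b
    have h1 := hsum b
    rw [hr b] at h1
    show _ + (n b - ∑ b', S b b' / 2) = _
    omega
  obtain ⟨t, ht1, ht2⟩ := orient' p1 q1 k (fun v => by rw [real, hk])
  let A : B → B → Prop := fun u v => ∃ e : E1, (if t e then p1 e else q1 e) = u ∧
    (if t e then q1 e else p1 e) = v
  have hD : ∀ u v, O.Adj u v ↔ A u v ∨ A v u := by
    intro u v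
    constructor
    · intro h
      have h1 := hpq ⟨s(u, v), h⟩
      by_cases ht : t ⟨s(u, v), h⟩ = true
      · rcases Sym2.eq_iff.1 h1 with ⟨h2, h3⟩ | ⟨h2, h3⟩
        · exact Or.inl ⟨⟨s(u, v), h⟩, by rw [if_pos ht]; exact h2, by rw [if_pos ht]; exact h3⟩
        · exact Or.inr ⟨⟨s(u, v), h⟩, by rw [if_pos ht]; exact h2, by rw [if_pos ht]; exact h3⟩
      · rcases Sym2.eq_iff.1 h1 with ⟨h2, h3⟩ | ⟨h2, h3⟩
        · exact Or.inr ⟨⟨s(u, v), h⟩, by rw [if_neg ht]; exact h3, by rw [if_neg ht]; exact h2⟩
        · exact Or.inl ⟨⟨s(u, v), h⟩, by rw [if_neg ht]; exact h3, by rw [if_neg ht]; exact h2⟩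
    · have key : ∀ u v, A u v → O.Adj u v := by
        rintro u v ⟨e, h1, h2⟩
        by_cases ht : t e = true
        · rw [if_pos ht] at h1 h2
          rw [← h1, ← h2]; exact hadj e
        · rw [if_neg ht] at h1 h2
          rw [← h1, ← h2]; exact (hadj e).symm
      rintro (h | h)
      · exact key _ _ h
      · exact (key _ _ h).symm
  have hnot : ∀ u v, A u v → A v u → False := by
    rintro u v ⟨e, h1, h2⟩ ⟨e', h3, h4⟩
    have huv : u ≠ v := ((hD u v).2 (Or.inl ⟨e, h1, h2⟩)).ne
    have he : e.1 = s(u, v) := by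
      rw [← hpq e]
      by_cases ht : t e = true
      · rw [if_pos ht] at h1 h2; rw [h1, h2]
      · rw [if_neg ht] at h1 h2; rw [h1, h2, Sym2.eq_swap]
    have he' : e'.1 = s(u, v) := by
      rw [← hpq e']
      by_cases ht : t e' = true
      · rw [if_pos ht] at h3 h4; rw [h3, h4, Sym2.eq_swap]
      · rw [if_neg ht] at h3 h4; rw [h3, h4]
    have hee : e = e' := Subtype.ext (he.trans he'.symm)
    subst hee
    exact huv (h1.symm.trans h3)
  have hcard : ∀ v, (univ.filter (fun w => A v w)).card = k v := by
    intro v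
    rw [← ht1 v]
    symm
    refine card_bij (fun e _ => if t e then q1 e else p1 e) ?_ ?_ ?_
    · intro e he
      exact mem_filter.2 ⟨mem_univ _, ⟨e, (mem_filter.1 he).2, rfl⟩⟩
    · intro e he e' he' h
      have h1 := (mem_filter.1 he).2
      have h2 := (mem_filter.1 he').2
      apply Subtype.ext
      rw [← hpq e, ← hpq e']
      by_cases ht : t e = true
      · by_cases ht' : t e' = true
        · rw [if_pos ht] at h1; rw [if_pos ht'] at h2
          simp only [ht, ht', if_true] at h
          rw [h1, h2, h]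
        · rw [if_pos ht] at h1; rw [if_neg ht'] at h2
          simp only [ht, ht', if_true] at h
          rw [h1, h2, h, Sym2.eq_swap]
          rfl
      · by_cases ht' : t e' = true
        · rw [if_neg ht] at h1; rw [if_pos ht'] at h2
          simp only [ht, ht', if_true] at h
          rw [h1, h2, ← h, Sym2.eq_swap]
          rfl
        · rw [if_neg ht] at h1; rw [if_neg ht'] at h2
          have h' : p1 e = p1 e' := by simpa [ht, ht'] using h
          rw [h1, h2, h']
    · intro w hw
      obtain ⟨e, h1, h2⟩ := (mem_filter.1 hw).2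
      exact ⟨e, mem_filter.2 ⟨mem_univ _, h1⟩, h2⟩
  have hcard' : ∀ v, (univ.filter (fun w => A w v)).card = k v := by
    intro v
    have h1 : (univ.filter (fun w => A v w)).card + (univ.filter (fun w => A w v)).card =
        (univ.filter (fun w => Odd (S v w))).card := by
      rw [← card_union_of_disjoint]
      · congr 1
        ext w
        rw [mem_union, mem_filter, mem_filter, mem_filter]
        have := hD v w
        constructor
        · rintro (⟨_, h⟩ | ⟨_, h⟩)
          · exact ⟨mem_univ _, this.2 (Or.inl h)⟩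
          · exact ⟨mem_univ _, this.2 (Or.inr h)⟩
        · rintro ⟨_, h⟩
          exact (this.1 h).imp (fun h => ⟨mem_univ _, h⟩) (fun h => ⟨mem_univ _, h⟩)
      · rw [Finset.disjoint_left]
        intro w h1 h2
        exact hnot _ _ (mem_filter.1 h1).2 (mem_filter.1 h2).2
    rw [hk, hcard] at h1
    omega
  refine ⟨fun b b' => S b b' / 2 + if A b b' then 1 else 0, fun b b' => ?_, fun b => ?_, fun b => ?_⟩
  · show S b b' / 2 + (if A b b' then 1 else 0) + (S b' b / 2 + if A b' b then 1 else 0) = S b b'
    rw [← hs b b']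
    by_cases h1 : A b b'
    · have h2 : ¬ A b' b := fun h => hnot _ _ h1 h
      rw [if_pos h1, if_neg h2]
      have h3 : Odd (S b b') := (hD b b').2 (Or.inl h1)
      have := Nat.two_mul_div_two_add_one_of_odd h3
      omega
    · by_cases h2 : A b' b
      · rw [if_neg h1, if_pos h2]
        have h3 : Odd (S b b') := (hD b b').2 (Or.inr h2)
        have := Nat.two_mul_div_two_add_one_of_odd h3
        omega
      · rw [if_neg h1, if_neg h2]
        have h3 : ¬ Odd (S b b') := fun h => by
          rcases (hD b b').1 h with h | h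
          · exact h1 h
          · exact h2 h
        have := Nat.two_mul_div_two_of_even (Nat.not_odd_iff_even.1 h3)
        omega
  · rw [sum_add_distrib, ← hk' b, ← hcard b, card_filter]
  · rw [sum_add_distrib, ← hk' b, ← hcard' b, card_filter]
    congr 1
    exact sum_congr rfl fun b' _ => by rw [hs]

/-- Splitting the fibres of a map. -/
theorem lift {E B : Type} [Fintype E] [DecidableEq E] [Fintype B] [DecidableEq B] (s : E → B)
    (N : ℕ) (a : B → ℕ) (h : ∀ b, (univ.filter (fun e => s e = b)).card = N * a b) :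
    ∃ s' : E → Σ b : B, Fin (a b), (∀ e, (s' e).1 = s e) ∧
      ∀ x, (univ.filter (fun e => s' e = x)).card = N := by
  classical
  have hc : ∀ b, Fintype.card {e : E // s e = b} = Fintype.card (Fin N × Fin (a b)) := by
    intro b
    rw [Fintype.card_subtype, h, Fintype.card_prod, Fintype.card_fin, Fintype.card_fin]
  let ψ : ∀ b, {e : E // s e = b} ≃ Fin N × Fin (a b) := fun b => Fintype.equivOfCardEq (hc b)
  refine ⟨fun e => ⟨s e, (ψ (s e) ⟨e, rfl⟩).2⟩, fun e => rfl, ?_⟩
  rintro ⟨b, j⟩
  have h1 : (univ.filter (fun e => (⟨s e, (ψ (s e) ⟨e, rfl⟩).2⟩ : Σ b : B, Fin (a b)) = ⟨b, j⟩)).card =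
      (univ : Finset (Fin N)).card := by
    symm
    refine card_bij (fun i _ => ((ψ b).symm (i, j)).1) ?_ ?_ ?_
    · intro i _
      rw [mem_filter]
      refine ⟨mem_univ _, ?_⟩
      have h2 := ((ψ b).symm (i, j)).2
      have h3 : ∀ (e : E) (he : s e = b), (ψ (s e) ⟨e, rfl⟩).2.1 = (ψ b ⟨e, he⟩).2.1 := by
        intro e he
        subst he
        rfl
      refine Sigma.ext h2 ?_
      rw [Fin.heq_ext_iff (congrArg a h2)]
      rw [h3 _ h2]
      have h4 : (⟨((ψ b).symm (i, j)).1, h2⟩ : {e : E // s e = b}) = (ψ b).symm (i, j) := rfl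
      rw [h4, Equiv.apply_symm_apply]
    · intro i _ i' _ hii
      have h2 : (ψ b).symm (i, j) = (ψ b).symm (i', j) := Subtype.ext hii
      have h3 := (ψ b).symm.injective h2
      exact (Prod.mk.inj h3).1
    · intro e he
      obtain ⟨_, he⟩ := mem_filter.1 he
      have h2 : s e = b := congrArg Sigma.fst he
      subst h2
      have h3 : (ψ (s e) ⟨e, rfl⟩).2 = j := eq_of_heq (Sigma.mk.inj he).2
      refine ⟨(ψ (s e) ⟨e, rfl⟩).1, mem_univ _, ?_⟩
      rw [← h3, Prod.mk.eta, Equiv.symm_apply_apply]
  rw [h1, card_univ, Fintype.card_fin]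

/-- Splitting of a matrix into matrices with prescribed row and column sums. -/
theorem split {B : Type} [Fintype B] [DecidableEq B] (D : B → B → ℕ) (N : ℕ) (a : B → ℕ)
    (hr : ∀ b, ∑ b', D b b' = N * a b) (hc : ∀ b, ∑ b', D b' b = N * a b) :
    ∃ X : Fin N → B → B → ℕ, (∀ i b, ∑ b', X i b b' = a b) ∧ (∀ i b, ∑ b', X i b' b = a b) ∧
      ∀ b b', ∑ i, X i b b' = D b b' := by
  classical
  let E := Σ x : B × B, Fin (D x.1 x.2)
  have hf : ∀ b b', (univ.filter (fun e : E => e.1.1 = b ∧ e.1.2 = b')).card = D b b' := by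
    intro b b'
    have h1 : (univ : Finset (Fin (D b b'))).card =
        (univ.filter (fun e : E => e.1.1 = b ∧ e.1.2 = b')).card := by
      refine card_bij (fun j _ => (⟨(b, b'), j⟩ : E)) ?_ ?_ ?_
      · intro j _
        exact mem_filter.2 ⟨mem_univ _, rfl, rfl⟩
      · intro j _ j' _ hjj
        exact eq_of_heq (Sigma.mk.inj hjj).2
      · rintro ⟨⟨x, y⟩, j⟩ he
        obtain ⟨_, h3, h4⟩ := mem_filter.1 he
        simp only at h3 h4
        subst h3
        subst h4
        exact ⟨j, mem_univ _, rfl⟩
    rw [← h1, card_univ, Fintype.card_fin]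
  have h1 : ∀ b, (univ.filter (fun e : E => e.1.1 = b)).card = N * a b := by
    intro b
    rw [← hr b, card_eq_sum_card_fiberwise (f := fun e : E => e.1.2) (t := univ)
      (fun e _ => mem_univ _)]
    refine sum_congr rfl fun b' _ => ?_
    rw [← hf b b', filter_filter]
  have h2 : ∀ b, (univ.filter (fun e : E => e.1.2 = b)).card = N * a b := by
    intro b
    rw [← hc b, card_eq_sum_card_fiberwise (f := fun e : E => e.1.1) (t := univ)
      (fun e _ => mem_univ _)]
    refine sum_congr rfl fun b' _ => ?_
    rw [← hf b' b, filter_filter]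
    congr 1
    ext e
    simp only [mem_filter, mem_univ, true_and]
    tauto
  obtain ⟨s, hs1, hs2⟩ := lift (fun e : E => e.1.1) N a h1
  obtain ⟨t, ht1, ht2⟩ := lift (fun e : E => e.1.2) N a h2
  obtain ⟨ℓ, hℓ, hℓ1, hℓ2⟩ := Pool.Agent.R41.Even.konig s t N univ hs2 ht2
  have one : ∀ (g : E → Σ b : B, Fin (a b)), (∀ x, (univ.filter (fun e => g e = x)).card = N) →
      (∀ e ∈ univ, ∀ e' ∈ univ, g e = g e' → ℓ e = ℓ e' → e = e') → ∀ (i : Fin N) x,
      (univ.filter (fun e => g e = x ∧ ℓ e = i)).card = 1 := by
    intro g hg hinj i x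
    have h3 : (univ.filter (fun e => g e = x)).image ℓ = range N := by
      refine eq_of_subset_of_card_le ?_ ?_
      · intro y hy
        obtain ⟨e, _, rfl⟩ := mem_image.1 hy
        exact mem_range.2 (hℓ e (mem_univ _))
      · rw [card_range, card_image_of_injOn, hg]
        intro e he e' he' hee
        have h4 := (mem_filter.1 (mem_coe.1 he)).2
        have h5 := (mem_filter.1 (mem_coe.1 he')).2
        exact hinj e (mem_univ _) e' (mem_univ _) (h4.trans h5.symm) hee
    have h4 : (i : ℕ) ∈ (univ.filter (fun e => g e = x)).image ℓ := by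
      rw [h3]; exact mem_range.2 i.2
    obtain ⟨e, he, hei⟩ := mem_image.1 h4
    rw [card_eq_one]
    refine ⟨e, ?_⟩
    ext e'
    rw [mem_filter, mem_singleton]
    constructor
    · rintro ⟨_, h5, h6⟩
      exact hinj e' (mem_univ _) e (mem_univ _) (h5.trans (mem_filter.1 he).2.symm)
        (h6.trans hei.symm)
    · rintro rfl
      exact ⟨mem_univ _, (mem_filter.1 he).2, hei⟩
  have row : ∀ (g : E → Σ b : B, Fin (a b)) (g0 : E → B), (∀ e, (g e).1 = g0 e) →
      (∀ x, (univ.filter (fun e => g e = x)).card = N) →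
      (∀ e ∈ univ, ∀ e' ∈ univ, g e = g e' → ℓ e = ℓ e' → e = e') → ∀ (i : Fin N) b,
      (univ.filter (fun e => ℓ e = i ∧ g0 e = b)).card = a b := by
    intro g g0 hg0 hg hinj i b
    rw [card_eq_sum_card_fiberwise (f := g)
      (t := ({b} : Finset B).sigma (fun _ => univ))]
    · have h3 : ∀ x ∈ ({b} : Finset B).sigma (fun _ => (univ : Finset (Fin (a _)))),
          ((univ.filter (fun e => ℓ e = i ∧ g0 e = b)).filter (fun e => g e = x)).card = 1 := by
        intro x hx
        rw [← one g hg hinj i x]
        congr 1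
        ext e
        simp only [mem_filter, mem_univ, true_and]
        simp only [mem_sigma, mem_singleton, mem_univ, and_true] at hx
        constructor
        · rintro ⟨⟨h4, _⟩, h5⟩; exact ⟨h5, h4⟩
        · rintro ⟨h4, h5⟩
          exact ⟨⟨h5, by rw [← hg0, h4, hx]⟩, h4⟩
      rw [sum_congr rfl h3, sum_const, card_sigma]
      simp
    · intro e he
      have h4 := (mem_filter.1 (mem_coe.1 he)).2.2
      rw [mem_coe, mem_sigma, mem_singleton]
      exact ⟨by rw [hg0, h4], mem_univ _⟩
  refine ⟨fun i b b' => (univ.filter (fun e : E => ℓ e = i ∧ e.1.1 = b ∧ e.1.2 = b')).card,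
    fun i b => ?_, fun i b => ?_, fun b b' => ?_⟩
  · rw [← row s (fun e => e.1.1) hs1 hs2 hℓ1 i b,
      card_eq_sum_card_fiberwise (f := fun e : E => e.1.2) (t := univ) (fun e _ => mem_univ _)]
    refine sum_congr rfl fun b' _ => ?_
    rw [filter_filter]
    refine congrArg Finset.card (Finset.ext fun e => ?_)
    simp only [mem_filter, mem_univ, true_and]
    tauto
  · rw [← row t (fun e => e.1.2) ht1 ht2 hℓ2 i b,
      card_eq_sum_card_fiberwise (f := fun e : E => e.1.1) (t := univ) (fun e _ => mem_univ _)]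
    refine sum_congr rfl fun b' _ => ?_
    rw [filter_filter]
    refine congrArg Finset.card (Finset.ext fun e => ?_)
    simp only [mem_filter, mem_univ, true_and]
    tauto
  · rw [← hf b b', card_eq_sum_card_fiberwise (f := fun e : E => (⟨ℓ e, hℓ e (mem_univ _)⟩ : Fin N))
      (t := univ) (fun e _ => mem_univ _)]
    refine sum_congr rfl fun i _ => ?_
    rw [filter_filter]
    refine congrArg Finset.card (Finset.ext fun e => ?_)
    simp only [mem_filter, mem_univ, true_and, Fin.ext_iff]
    tauto

/-- Splitting of an amalgamated graph into factors. -/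
theorem factors {B : Type} [Fintype B] [DecidableEq B] (N : ℕ) (T : B → B → ℕ)
    (hTs : ∀ b b', T b b' = T b' b) (hTd : ∀ b, Even (T b b)) (J : Fin N → B → B → ℕ)
    (hJs : ∀ i b b', J i b b' = J i b' b) (hJd : ∀ i b, J i b b = 0) (d a m : B → ℕ)
    (hJ : ∀ i b, ∑ b', J i b b' = d b) (hm : ∀ b, m b = d b + 2 * a b)
    (hT : ∀ b, ∑ b', T b b' = N * m b) (hle : ∀ b b', ∑ i, J i b b' ≤ T b b') :
    ∃ C : Fin N → B → B → ℕ, (∀ i b b', C i b b' = C i b' b) ∧ (∀ i b, Even (C i b b)) ∧
      (∀ i b, ∑ b', C i b b' = m b) ∧ ∀ b b', ∑ i, C i b b' = T b b' := by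
  obtain ⟨D, hD1, hD2, hD3⟩ := half (fun b b' => T b b' - ∑ i, J i b b')
    (fun b b' => by rw [hTs b b', sum_congr rfl fun i _ => hJs i b b'])
    (fun b => by
      rw [sum_congr rfl fun i _ => hJd i b, sum_const_zero, Nat.sub_zero]
      exact hTd b) (fun b => N * a b) (fun b => by
      have h1 : ∑ b', (T b b' - ∑ i, J i b b') + ∑ b', ∑ i, J i b b' = ∑ b', T b b' := by
        rw [← sum_add_distrib]
        exact sum_congr rfl fun b' _ => Nat.sub_add_cancel (hle b b')
      rw [hT b, sum_comm, sum_congr rfl fun i _ => hJ i b, sum_const, card_univ, Fintype.card_fin,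
        smul_eq_mul, hm b] at h1
      have h2 : N * (d b + 2 * a b) = N * d b + 2 * (N * a b) := by ring
      omega)
  obtain ⟨X, hX1, hX2, hX3⟩ := split D N a hD2 hD3
  refine ⟨fun i b b' => J i b b' + (X i b b' + X i b' b), fun i b b' => ?_, fun i b => ?_,
    fun i b => ?_, fun b b' => ?_⟩
  · show J i b b' + (X i b b' + X i b' b) = J i b' b + (X i b' b + X i b b')
    rw [hJs i b b']
    ring
  · show Even (J i b b + (X i b b + X i b b))
    rw [hJd, zero_add]
    exact ⟨_, rfl⟩
  · rw [sum_add_distrib, sum_add_distrib, hJ, hX1, hX2, hm b]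
    ring
  · rw [sum_add_distrib, sum_add_distrib, hX3, hX3, hD1]
    exact Nat.add_sub_cancel' (hle b b')

end Pool.Agent.R448.TW
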