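import Pool.Agent.R448.TW.Detach
import Pool.Agent.R448.TW.Split

set_option autoImplicit false

/-!
Covers of regular multigraphs with twin classes by perfect matchings (multiplicity functions).
-/

namespace Pool.Agent.R448.TW

open Finset

/-- the number of vertices in the class `b` -/
def sz {W B : Type} [Fintype W] [DecidableEq B] (cl : W → B) (b : B) : ℕ :=
  (univ.filter (fun w => cl w = b)).card

/-- (twice) the number of edges between the classes `b`, `b'` (inside the class `b = b'`) -/
def eb {W B : Type} [Fintype W] [DecidableEq B] (p : W → W → ℕ) (cl : W → B) (b b' : B) : ℕ :=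
  ∑ u ∈ univ.filter (fun w => cl w = b), ∑ v ∈ univ.filter (fun w => cl w = b'), p u v

section

variable {W B : Type} [Fintype W] [DecidableEq W] [Fintype B] [DecidableEq B]

theorem twin_block (p : W → W → ℕ) (hs : ∀ u v, p u v = p v u) (cl : W → B)
    (htw : ∀ u v w, cl u = cl v → w ≠ u → w ≠ v → p u w = p v w) {y z y' z' : W} (hyz : y ≠ z)
    (hyz' : y' ≠ z') (hy : cl y = cl y') (hz : cl z = cl z') : p y z = p y' z' := by
  by_cases h1 : y' = z
  · subst h1
    by_cases h2 : z' = y
    · subst h2
      exact hs _ _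
    · rw [hs y y']
      rw [hs y' y, hs y' z']
      exact htw y z' y' (hy.trans hz) (Ne.symm hyz) hyz'
  · rw [htw y y' z hy (Ne.symm hyz) (Ne.symm h1), hs y' z, hs y' z']
    exact htw z z' y' hz h1 hyz'

open Classical in
/-- block multiplicities -/
noncomputable def bl (p : W → W → ℕ) (cl : W → B) (b b' : B) : ℕ :=
  if h : ∃ yz : W × W, yz.1 ≠ yz.2 ∧ cl yz.1 = b ∧ cl yz.2 = b' then p h.choose.1 h.choose.2 else 0

theorem bl_eq (p : W → W → ℕ) (hs : ∀ u v, p u v = p v u) (cl : W → B)
    (htw : ∀ u v w, cl u = cl v → w ≠ u → w ≠ v → p u w = p v w) {y z : W} (hyz : y ≠ z) :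
    bl p cl (cl y) (cl z) = p y z := by
  have h : ∃ yz : W × W, yz.1 ≠ yz.2 ∧ cl yz.1 = cl y ∧ cl yz.2 = cl z := ⟨(y, z), hyz, rfl, rfl⟩
  unfold bl
  rw [dif_pos h]
  obtain ⟨h1, h2, h3⟩ := h.choose_spec
  exact twin_block p hs cl htw h1 hyz h2 h3

theorem eb_ne (p : W → W → ℕ) (hs : ∀ u v, p u v = p v u) (cl : W → B)
    (htw : ∀ u v w, cl u = cl v → w ≠ u → w ≠ v → p u w = p v w) {b b' : B} (hb : b ≠ b') :
    eb p cl b b' = bl p cl b b' * sz cl b * sz cl b' := by
  unfold eb
  have h1 : ∀ u ∈ univ.filter (fun w => cl w = b),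
      ∑ v ∈ univ.filter (fun w => cl w = b'), p u v = bl p cl b b' * sz cl b' := by
    intro u hu
    have hu' := (mem_filter.1 hu).2
    have h2 : ∀ v ∈ univ.filter (fun w => cl w = b'), p u v = bl p cl b b' := by
      intro v hv
      have hv' := (mem_filter.1 hv).2
      have huv : u ≠ v := by
        rintro rfl
        exact hb (hu'.symm.trans hv')
      rw [← bl_eq p hs cl htw huv, hu', hv']
    rw [sum_congr rfl h2, sum_const, smul_eq_mul, mul_comm]
    rfl
  rw [sum_congr rfl h1, sum_const, smul_eq_mul]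
  unfold sz
  ring

theorem eb_self (p : W → W → ℕ) (hs : ∀ u v, p u v = p v u) (hl : ∀ u, p u u = 0) (cl : W → B)
    (htw : ∀ u v w, cl u = cl v → w ≠ u → w ≠ v → p u w = p v w) (b : B) :
    eb p cl b b = bl p cl b b * (sz cl b * (sz cl b - 1)) := by
  unfold eb
  have h1 : ∀ u ∈ univ.filter (fun w => cl w = b),
      ∑ v ∈ univ.filter (fun w => cl w = b), p u v = bl p cl b b * (sz cl b - 1) := by
    intro u hu
    have hu' := (mem_filter.1 hu).2
    rw [← add_sum_erase _ _ hu, hl, zero_add]
    have h2 : ∀ v ∈ (univ.filter (fun w => cl w = b)).erase u, p u v = bl p cl b b := by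
      intro v hv
      obtain ⟨huv, hv⟩ := mem_erase.1 hv
      have hv' := (mem_filter.1 hv).2
      rw [← bl_eq p hs cl htw (Ne.symm huv), hu', hv']
    rw [sum_congr rfl h2, sum_const, smul_eq_mul, card_erase_of_mem hu, mul_comm]
    rfl
  rw [sum_congr rfl h1, sum_const, smul_eq_mul]
  unfold sz
  ring

theorem eb_row (p : W → W → ℕ) (r : ℕ) (hr : ∀ u, ∑ v, p u v = r) (cl : W → B) (b : B) :
    ∑ b', eb p cl b b' = r * sz cl b := by
  unfold eb
  rw [sum_comm]
  have h1 : ∀ u ∈ univ.filter (fun w => cl w = b),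
      ∑ b', ∑ v ∈ univ.filter (fun w => cl w = b'), p u v = r := by
    intro u _
    rw [← hr u]
    exact sum_fiberwise univ cl (fun v => p u v)
  rw [sum_congr rfl h1, sum_const, smul_eq_mul, mul_comm]
  rfl

theorem eb_symm (p : W → W → ℕ) (hs : ∀ u v, p u v = p v u) (cl : W → B) (b b' : B) :
    eb p cl b b' = eb p cl b' b := by
  unfold eb
  rw [sum_comm]
  exact sum_congr rfl fun u _ => sum_congr rfl fun v _ => hs _ _

theorem sum_rep (cl : W → B) (s : B → W) (hs : ∀ w, cl (s (cl w)) = cl w) (f : B → ℤ)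
    (hf : ∀ b, (∀ w, cl w ≠ b) → f b = 0) :
    ∑ z, (if z = s (cl z) then f (cl z) else 0) = ∑ b, f b := by
  rw [← sum_fiberwise univ cl]
  refine sum_congr rfl fun b _ => ?_
  have h1 : ∀ z ∈ univ.filter (fun w => cl w = b), (if z = s (cl z) then f (cl z) else 0) =
      if z = s b then f b else 0 := by
    intro z hz
    rw [(mem_filter.1 hz).2]
  rw [sum_congr rfl h1, sum_ite_eq']
  by_cases h2 : ∃ w, cl w = b
  · obtain ⟨w, rfl⟩ := h2
    have h3 : s (cl w) ∈ univ.filter (fun x => cl x = cl w) := mem_filter.2 ⟨mem_univ _, hs w⟩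
    rw [if_pos h3]
  · push Not at h2
    rw [hf b h2]
    simp

/-- Covers of a regular multigraph whose vertices are partitioned into classes of twins. -/
theorem cover (p : W → W → ℕ) (hs : ∀ u v, p u v = p v u) (hl : ∀ u, p u u = 0) (k r : ℕ)
    (hr : ∀ u, ∑ v, p u v = r) (cl : W → B)
    (htw : ∀ u v w, cl u = cl v → w ≠ u → w ≠ v → p u w = p v w)
    (J : Fin (k * r) → B → B → ℕ) (hJs : ∀ i b b', J i b b' = J i b' b) (hJd : ∀ i b, J i b b = 0)
    (d a : B → ℕ) (hJ : ∀ i b, ∑ b', J i b b' = d b) (hm : ∀ b, sz cl b = d b + 2 * a b)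
    (hle : ∀ b b', ∑ i, J i b b' ≤ k * eb p cl b b') :
    ∃ M : Fin (k * r) → W → W, (∀ i w, M i (M i w) = w) ∧ (∀ i w, M i w ≠ w) ∧
      ∀ w z, (univ.filter (fun i => M i w = z)).card = k * p w z := by
  classical
  rcases isEmpty_or_nonempty W with hW | hW
  · exact ⟨fun _ w => w, fun _ w => rfl, fun _ w => isEmptyElim w, fun w => isEmptyElim w⟩
  obtain ⟨C, hC1, hC2, hC3, hC4⟩ := factors (k * r) (fun b b' => k * eb p cl b b')
    (fun b b' => by rw [eb_symm p hs]) (fun b => by
      rw [eb_self p hs hl cl htw b]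
      have h1 : Even (sz cl b * (sz cl b - 1)) := Nat.even_mul_pred_self _
      exact (h1.mul_left _).mul_left _) J hJs hJd d a (sz cl) hJ hm
    (fun b => by rw [← mul_sum, eb_row p r hr cl b, mul_assoc]) hle
  let s : B → W := Function.invFun cl
  have hsc : ∀ w, cl (s (cl w)) = cl w := fun w => Function.invFun_eq ⟨w, rfl⟩
  have hsz : ∀ b, (∀ w, cl w ≠ b) → sz cl b = 0 := by
    intro b hb
    unfold sz
    rw [card_eq_zero, filter_eq_empty_iff]
    exact fun w _ => hb w
  have hC0 : ∀ i b b', (∀ w, cl w ≠ b') → C i b b' = 0 := by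
    intro i b b' hb
    have h1 := hC3 i b'
    rw [hsz b' hb] at h1
    rw [hC1]
    exact (sum_eq_zero_iff.1 h1) b (mem_univ _)
  let Q : W → W → ℤ := fun y z => (k : ℤ) * bl p cl (cl y) (cl z)
  let σ : W → ℤ := fun y => if y = s (cl y) then (sz cl (cl y) : ℤ) else 0
  let c : Fin (k * r) → W → W → ℤ := fun i y z =>
    if y = s (cl y) then (if z = s (cl z) then (C i (cl y) (cl z) : ℤ) else 0) else 0
  have hst : St Q σ c := by
    refine ⟨fun i y z => ?_, fun i y z => ?_, fun i y => ?_, fun i y => ?_, fun y z => ?_⟩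
    · show 0 ≤ if y = s (cl y) then (if z = s (cl z) then (C i (cl y) (cl z) : ℤ) else 0) else 0
      split_ifs <;> positivity
    · show (if y = s (cl y) then (if z = s (cl z) then (C i (cl y) (cl z) : ℤ) else 0) else 0) =
        if z = s (cl z) then (if y = s (cl y) then (C i (cl z) (cl y) : ℤ) else 0) else 0
      rw [hC1 i (cl y) (cl z)]
      split_ifs <;> rfl
    · show Even (if y = s (cl y) then (if y = s (cl y) then (C i (cl y) (cl y) : ℤ) else 0) else 0)
      by_cases h : y = s (cl y)
      · rw [if_pos h, if_pos h]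
        exact_mod_cast hC2 i (cl y)
      · rw [if_neg h]
        exact ⟨0, rfl⟩
    · show ∑ z, (if y = s (cl y) then (if z = s (cl z) then (C i (cl y) (cl z) : ℤ) else 0) else 0)
        = if y = s (cl y) then (sz cl (cl y) : ℤ) else 0
      by_cases h : y = s (cl y)
      · rw [if_pos h]
        simp only [if_pos h]
        rw [sum_rep cl s hsc (fun b => (C i (cl y) b : ℤ)) (fun b hb => by rw [hC0 i _ b hb]; rfl),
          ← hC3 i (cl y)]
        push_cast
        rfl
      · rw [if_neg h]
        simp only [if_neg h]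
        exact sum_const_zero
    · show ∑ i, (if y = s (cl y) then (if z = s (cl z) then (C i (cl y) (cl z) : ℤ) else 0) else 0)
        = if y = z then (k : ℤ) * bl p cl (cl y) (cl y) * (if y = s (cl y) then
          (sz cl (cl y) : ℤ) else 0) * ((if y = s (cl y) then (sz cl (cl y) : ℤ) else 0) - 1)
          else (k : ℤ) * bl p cl (cl y) (cl z) * (if y = s (cl y) then (sz cl (cl y) : ℤ) else 0) *
            (if z = s (cl z) then (sz cl (cl z) : ℤ) else 0)
      by_cases hy : y = s (cl y)
      · simp only [if_pos hy]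
        by_cases hz : z = s (cl z)
        · simp only [if_pos hz]
          have h1 : ∑ i, (C i (cl y) (cl z) : ℤ) = ((k * eb p cl (cl y) (cl z) : ℕ) : ℤ) := by
            rw [← hC4]
            push_cast
            rfl
          rw [h1]
          by_cases hyz : y = z
          · subst hyz
            rw [if_pos rfl, eb_self p hs hl cl htw]
            have h2 : 1 ≤ sz cl (cl y) := card_pos.2 ⟨y, mem_filter.2 ⟨mem_univ _, rfl⟩⟩
            push_cast [Nat.cast_sub h2]
            ring
          · have hb : cl y ≠ cl z := by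
              intro h2
              apply hyz
              rw [hy, hz, h2]
            rw [if_neg hyz, eb_ne p hs cl htw hb]
            push_cast
            ring
        · simp only [if_neg hz]
          have hyz : y ≠ z := by
            rintro rfl
            exact hz hy
          rw [if_neg hyz]
          simp
      · simp only [if_neg hy]
        simp
  obtain ⟨c', hc'⟩ := detach Q (fun y z => by positivity) (fun y z => by
      by_cases hyz : y = z
      · rw [hyz]
      · show (k : ℤ) * bl p cl (cl y) (cl z) = (k : ℤ) * bl p cl (cl z) (cl y)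
        rw [bl_eq p hs cl htw hyz, bl_eq p hs cl htw (Ne.symm hyz), hs]) cl
    (fun x y z hxy => by
      show (k : ℤ) * bl p cl (cl x) (cl z) = (k : ℤ) * bl p cl (cl y) (cl z)
      rw [hxy]) _ σ c rfl
    (fun y => by
      show 0 ≤ if y = s (cl y) then (sz cl (cl y) : ℤ) else 0
      split_ifs <;> positivity) (fun b => by
      have h1 : ∀ z ∈ univ.filter (fun w => cl w = b), σ z = if z = s b then (sz cl b : ℤ) else 0 := by
        intro z hz
        show (if z = s (cl z) then (sz cl (cl z) : ℤ) else 0) = _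
        rw [(mem_filter.1 hz).2]
      rw [sum_congr rfl h1, sum_ite_eq']
      by_cases h2 : ∃ w, cl w = b
      · obtain ⟨w, rfl⟩ := h2
        have h3 : s (cl w) ∈ univ.filter (fun x => cl x = cl w) :=
          mem_filter.2 ⟨mem_univ _, hsc w⟩
        rw [if_pos h3]
        rfl
      · push Not at h2
        have h3 := hsz b h2
        unfold sz at h3 ⊢
        rw [h3]
        simp) hst
  obtain ⟨M, hM1, hM2, hM3⟩ := matchings Q c' hc'
  refine ⟨M, hM1, hM2, fun w z => ?_⟩
  by_cases hwz : w = z
  · subst hwz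
    rw [hl, mul_zero, card_eq_zero, filter_eq_empty_iff]
    exact fun i _ => hM2 i w
  · have h1 := hM3 w z hwz
    have h2 : Q w z = (k : ℤ) * p w z := by
      show (k : ℤ) * bl p cl (cl w) (cl z) = _
      rw [bl_eq p hs cl htw hwz]
    rw [h2] at h1
    exact_mod_cast h1

end

end Pool.Agent.R448.TW
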