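import Pool.Agent.R448.TW.Peel

set_option autoImplicit false

/-!
Detaching all amalgamated vertices.
-/

namespace Pool.Agent.R448.TW

open Finset

theorem detach {ι W B : Type} [Fintype ι] [Fintype W] [DecidableEq W] [DecidableEq ι]
    [DecidableEq B] (Q : W → W → ℤ) (hQ0 : ∀ y z, 0 ≤ Q y z) (hQs : ∀ y z, Q y z = Q z y)
    (cl : W → B) (htw : ∀ x y z, cl x = cl y → Q x z = Q y z) :
    ∀ (n : ℕ) (σ : W → ℤ) (c : ι → W → W → ℤ), (univ.filter (fun y : W => σ y = 0)).card = n →
      (∀ y, 0 ≤ σ y) → (∀ b : B, ∑ z ∈ univ.filter (fun z : W => cl z = b), σ z =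
        (univ.filter (fun z : W => cl z = b)).card) →
      St Q σ c → ∃ c' : ι → W → W → ℤ, St Q (fun _ => 1) c' := by
  intro n
  induction n with
  | zero =>
    intro σ c h0 hσ hcl hst
    refine ⟨c, ?_⟩
    have h1 : σ = fun _ => 1 := by
      funext y
      have hpos : ∀ z, 1 ≤ σ z := by
        intro z
        have h2 := hσ z
        have h3 : σ z ≠ 0 := by
          intro h4
          have : z ∈ univ.filter (fun y => σ y = 0) := mem_filter.2 ⟨mem_univ _, h4⟩
          rw [card_eq_zero.1 h0] at this
          exact absurd this (notMem_empty _)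
        omega
      have h2 := hcl (cl y)
      have h3 : ∑ z ∈ univ.filter (fun z => cl z = cl y), (σ z - 1) = 0 := by
        rw [sum_sub_distrib, h2]
        simp
      have h4 := (sum_eq_zero_iff_of_nonneg (fun z _ => by have := hpos z; omega)).1 h3 y
        (mem_filter.2 ⟨mem_univ _, rfl⟩)
      omega
    rw [← h1]
    exact hst
  | succ n ih =>
    intro σ c h0 hσ hcl hst
    obtain ⟨x, hx⟩ := card_pos.1 (by rw [h0]; exact Nat.succ_pos n)
    have hx0 : σ x = 0 := (mem_filter.1 hx).2
    obtain ⟨r, hrc, hr⟩ : ∃ r, cl r = cl x ∧ 2 ≤ σ r := by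
      by_contra hcon
      push Not at hcon
      have h2 := hcl (cl x)
      have h3 : ∑ z ∈ univ.filter (fun z => cl z = cl x), σ z <
          ∑ z ∈ univ.filter (fun z => cl z = cl x), (1 : ℤ) := by
        refine sum_lt_sum (fun z hz => ?_) ⟨x, mem_filter.2 ⟨mem_univ _, rfl⟩, by omega⟩
        have := hcon z (mem_filter.1 hz).2
        omega
      rw [h2] at h3
      simp at h3
    have hxr : x ≠ r := by rintro rfl; omega
    obtain ⟨c', hc'⟩ := peel Q hQ0 hQs σ hσ c hst x r hx0 hr (fun z => htw x r z hrc.symm)
    refine ih _ c' ?_ ?_ ?_ hc'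
    · have h2 : univ.filter (fun y => σ y + dl y x - dl y r = 0) =
          (univ.filter (fun y => σ y = 0)).erase x := by
        ext y
        rw [mem_erase, mem_filter, mem_filter]
        unfold dl
        by_cases hyx : y = x
        · subst hyx
          rw [if_pos rfl, if_neg hxr, hx0]
          simp
        · rw [if_neg hyx]
          by_cases hyr : y = r
          · subst hyr
            rw [if_pos rfl]
            constructor
            · rintro ⟨_, h⟩; omega
            · rintro ⟨_, _, h⟩; omega
          · rw [if_neg hyr]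
            simp [hyx]
      rw [h2, card_erase_of_mem hx, h0]
      rfl
    · intro y
      have h2 := hσ y
      show 0 ≤ σ y + dl y x - dl y r
      unfold dl
      by_cases hyr : y = r
      · subst hyr
        rw [if_pos rfl, if_neg hxr.symm]
        omega
      · rw [if_neg hyr]
        by_cases hyx : y = x
        · rw [if_pos hyx]; omega
        · rw [if_neg hyx]; omega
    · intro b
      show ∑ z ∈ univ.filter (fun z => cl z = b), (σ z + dl z x - dl z r) = _
      rw [sum_sub_distrib, sum_add_distrib, hcl b]
      have h2 : ∀ a : W, ∑ z ∈ univ.filter (fun z => cl z = b), dl z a =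
          if cl a = b then 1 else 0 := by
        intro a
        unfold dl
        rw [sum_ite_eq']
        simp
      rw [h2, h2, hrc]
      ring

/-- Colour classes of a completely detached graph are perfect matchings. -/
theorem matchings {ι W : Type} [Fintype ι] [Fintype W] [DecidableEq W]
    (Q : W → W → ℤ) (c : ι → W → W → ℤ) (h : St Q (fun _ => 1) c) :
    ∃ M : ι → W → W, (∀ i w, M i (M i w) = w) ∧ (∀ i w, M i w ≠ w) ∧
      ∀ w z, w ≠ z → ((univ.filter (fun i => M i w = z)).card : ℤ) = Q w z := by
  classical
  have h1 : ∀ i w, ∃ z, c i w z = 1 := by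
    intro i w
    have hr := h.row i w
    by_contra hcon
    push Not at hcon
    have h2 : ∀ z, c i w z ≤ 1 := by
      intro z
      have h3 := single_le_sum (fun z _ => h.nonneg i w z) (mem_univ z)
      rw [hr] at h3
      exact h3
    have h3 : ∀ z, c i w z = 0 := by
      intro z
      have := h2 z; have := hcon z; have := h.nonneg i w z
      omega
    rw [sum_eq_zero (fun z _ => h3 z)] at hr
    exact absurd hr (by norm_num)
  choose M hM using h1
  have h2 : ∀ i w z, c i w z = if M i w = z then 1 else 0 := by
    intro i w z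
    have hr := h.row i w
    by_cases hz : M i w = z
    · rw [if_pos hz, ← hz]; exact hM i w
    · rw [if_neg hz]
      rw [← add_sum_erase _ _ (mem_univ (M i w)), hM i w] at hr
      have h3 : ∑ z ∈ univ.erase (M i w), c i w z = 0 := by
        have : (1 : ℤ) + ∑ z ∈ univ.erase (M i w), c i w z = 1 := hr
        omega
      exact (sum_eq_zero_iff_of_nonneg (fun z _ => h.nonneg i w z)).1 h3 z
        (mem_erase.2 ⟨Ne.symm hz, mem_univ _⟩)
  refine ⟨M, fun i w => ?_, fun i w hw => ?_, fun w z hwz => ?_⟩
  · have h3 := h.symm i w (M i w)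
    rw [hM, h2 i (M i w) w] at h3
    by_contra hne
    rw [if_neg hne] at h3
    omega
  · have h3 := h.even i w
    have h4 := hM i w
    rw [hw] at h4
    rw [h4] at h3
    exact absurd h3 (by decide)
  · have h3 := h.tot w z
    rw [if_neg hwz] at h3
    rw [card_filter]
    push_cast
    rw [sum_congr rfl (fun i _ => h2 i w z)] at h3
    rw [h3]
    ring

end Pool.Agent.R448.TW
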