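import Pool.Agent.R448.TW.Cover

set_option autoImplicit false

/-!
From multiplicity functions to edges; joins in graphs.
-/

namespace Pool.Agent.R448.TW

open Finset

/-- number of edges joining `u` and `v` -/
noncomputable def mu {V E : Type} [Finite E] (ends : E → Sym2 V) (u v : V) : ℕ :=
  {e | ends e = s(u, v)}.ncard

theorem mu_symm {V E : Type} [Finite E] (ends : E → Sym2 V) (u v : V) :
    mu ends u v = mu ends v u := by
  unfold mu
  rw [Sym2.eq_swap]

theorem mu_self {V E : Type} [Finite E] (ends : E → Sym2 V) (hl : ∀ e, ¬ (ends e).IsDiag) (u : V) :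
    mu ends u u = 0 := by
  unfold mu
  rw [Set.ncard_eq_zero]
  ext e
  simp only [Set.mem_setOf_eq, Set.mem_empty_iff_false, iff_false]
  intro h
  apply hl e
  rw [h]
  exact Sym2.mk_isDiag_iff.2 rfl

theorem mu_row {V E : Type} [Fintype V] [Finite E] (ends : E → Sym2 V)
    (hl : ∀ e, ¬ (ends e).IsDiag) (u : V) : ∑ v, mu ends u v = {e | u ∈ ends e}.ncard := by
  classical
  have := Fintype.ofFinite E
  have h1 : ∀ v, mu ends u v = (univ.filter (fun e => ends e = s(u, v))).card := by
    intro v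
    unfold mu
    rw [Set.ncard_eq_toFinset_card']
    congr 1
    ext e
    simp
  rw [sum_congr rfl fun v _ => h1 v, Set.ncard_eq_toFinset_card', ← card_biUnion]
  · congr 1
    ext e
    simp only [mem_biUnion, mem_univ, true_and, mem_filter, Set.mem_toFinset, Set.mem_setOf_eq]
    constructor
    · rintro ⟨v, hv⟩
      rw [hv]
      exact Sym2.mem_mk_left _ _
    · intro h
      obtain ⟨v, hv⟩ := Sym2.mem_iff_exists.1 h
      exact ⟨v, hv⟩
  · intro v _ w _ hvw
    show Disjoint _ _
    rw [Finset.disjoint_left]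
    intro e h2 h3
    apply hvw
    have h4 := (mem_filter.1 h2).2.symm.trans (mem_filter.1 h3).2
    exact Sym2.congr_right.1 h4

/-- Matchings with prescribed multiplicities, in terms of edges. -/
theorem edges {V E : Type} [Fintype V] [DecidableEq V] [Finite E] (ends : E → Sym2 V) (N k : ℕ)
    (hl : ∀ e, ¬ (ends e).IsDiag) (M : Fin N → V → V) (hM : ∀ i w, M i (M i w) = w)
    (hc : ∀ w z, (univ.filter (fun i => M i w = z)).card = k * mu ends w z) :
    ∃ X : Fin N → Set E, (∀ i v, ∃! e, e ∈ X i ∧ v ∈ ends e) ∧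
      ∀ e, {i | e ∈ X i}.ncard = k := by
  classical
  have := Fintype.ofFinite E
  let P : Fin N → Sym2 V → Prop := fun i z => ∃ u, s(u, M i u) = z
  have hP : ∀ i u v, P i s(u, v) ↔ M i u = v := by
    intro i u v
    constructor
    · rintro ⟨w, hw⟩
      rcases Sym2.eq_iff.1 hw with ⟨h1, h2⟩ | ⟨h1, h2⟩
      · rw [← h1]; exact h2
      · rw [← h2, hM]; exact h1
    · intro h
      exact ⟨u, by rw [h]⟩
  have hcard : ∀ z : Sym2 V, Fintype.card {i // P i z} =
      Fintype.card (Fin k × {e // ends e = z}) := by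
    intro z
    induction z using Sym2.inductionOn with
    | hf u v =>
      rw [Fintype.card_prod, Fintype.card_fin, Fintype.card_subtype, Fintype.card_subtype]
      have h1 : univ.filter (fun i => P i s(u, v)) = univ.filter (fun i => M i u = v) := by
        ext i
        simp only [mem_filter, mem_univ, true_and]
        exact hP i u v
      rw [h1, hc u v]
      congr 1
      unfold mu
      rw [Set.ncard_eq_toFinset_card']
      congr 1
      ext e
      simp
  let g : ∀ z : Sym2 V, {i // P i z} ≃ Fin k × {e // ends e = z} :=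
    fun z => Fintype.equivOfCardEq (hcard z)
  let X : Fin N → Set E := fun i => {e | ∃ h : P i (ends e), (g (ends e) ⟨i, h⟩).2 = ⟨e, rfl⟩}
  have hX : ∀ (i : Fin N) (z : Sym2 V) (e : E) (he : ends e = z),
      e ∈ X i ↔ ∃ h : P i z, (g z ⟨i, h⟩).2 = ⟨e, he⟩ := by
    intro i z e he
    subst he
    rfl
  refine ⟨X, fun i v => ?_, fun e => ?_⟩
  · have h1 : P i s(v, M i v) := ⟨v, rfl⟩
    have h2 := (g s(v, M i v) ⟨i, h1⟩).2.2
    refine ⟨(g s(v, M i v) ⟨i, h1⟩).2.1, ⟨(hX i _ _ h2).2 ⟨h1, rfl⟩, ?_⟩, ?_⟩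
    · rw [h2]
      exact Sym2.mem_mk_left _ _
    · rintro e ⟨he, hv⟩
      obtain ⟨w, hw⟩ := Sym2.mem_iff_exists.1 hv
      obtain ⟨h3, h4⟩ := (hX i _ e hw).1 he
      have h5 : M i v = w := (hP i v w).1 h3
      subst h5
      have h6 := congrArg Subtype.val h4
      exact h6.symm
  · have h1 : {i | e ∈ X i} = (fun j : Fin k => ((g (ends e)).symm (j, ⟨e, rfl⟩)).1) '' Set.univ := by
      ext i
      simp only [Set.mem_setOf_eq, Set.image_univ, Set.mem_range]
      constructor
      · rintro ⟨h2, h3⟩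
        refine ⟨(g (ends e) ⟨i, h2⟩).1, ?_⟩
        rw [← h3, Prod.mk.eta, Equiv.symm_apply_apply]
      · rintro ⟨j, rfl⟩
        refine ⟨((g (ends e)).symm (j, ⟨e, rfl⟩)).2, ?_⟩
        rw [Subtype.coe_eta, Equiv.apply_symm_apply]
    rw [h1, Set.ncard_image_of_injective, Set.ncard_univ, Nat.card_eq_fintype_card,
      Fintype.card_fin]
    intro j j' hjj
    have h2 := (g (ends e)).symm.injective (Subtype.ext hjj)
    exact (Prod.mk.inj h2).1

end Pool.Agent.R448.TW
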