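import Pool.Agent.R448.TW.Edge

set_option autoImplicit false

/-!
Joins in graphs and the main theorem on twin classes.
-/

namespace Pool.Agent.R448.TW

open Finset SimpleGraph

section

variable {V : Type} [DecidableEq V]

/-- number of edges of `S` at `v` -/
def inc (S : Finset (Sym2 V)) (v : V) : ℕ := (S.filter (fun e => v ∈ e)).card

theorem card_symm {α : Type} [DecidableEq α] (A B : Finset α) :
    (symmDiff A B).card + 2 * (A ∩ B).card = A.card + B.card := by
  have h1 : (symmDiff A B).card = (A \ B).card + (B \ A).card := by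
    show ((A \ B) ∪ (B \ A)).card = _
    exact Finset.card_union_of_disjoint disjoint_sdiff_sdiff
  have h2 := Finset.card_sdiff_add_card_inter A B
  have h3 := Finset.card_sdiff_add_card_inter B A
  rw [Finset.inter_comm] at h3
  omega

theorem inc_symm (A B : Finset (Sym2 V)) (v : V) :
    inc (symmDiff A B) v + 2 * inc (A ∩ B) v = inc A v + inc B v := by
  unfold inc
  rw [← card_symm]
  congr 1
  · congr 1
    ext e
    simp only [Finset.mem_filter, Finset.mem_symmDiff]
    tauto
  · congr 2
    ext e
    simp only [Finset.mem_filter, Finset.mem_inter]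
    tauto

theorem inc_trail {T : SimpleGraph V} {x y : V} (hxy : x ≠ y) (p : T.Walk x y) (hp : p.IsTrail)
    (v : V) : Odd (inc p.edges.toFinset v) ↔ (v = x ∨ v = y) := by
  have h1 : inc p.edges.toFinset v = p.edges.countP (fun e => v ∈ e) := by
    unfold inc
    rw [List.countP_eq_length_filter, ← List.toFinset_card_of_nodup (hp.edges_nodup.filter _)]
    congr 1
    ext e
    simp
  have h2 := hp.even_countP_edges_iff v
  rw [← h1] at h2
  rw [← Nat.not_even_iff_odd, h2]
  constructor
  · intro h
    by_contra hcon
    push Not at hcon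
    exact h fun _ => hcon
  · rintro (rfl | rfl) h
    · exact (h hxy).1 rfl
    · exact (h hxy).2 rfl

end

theorem exists_join {B : Type} [Fintype B] [DecidableEq B] (F : SimpleGraph B) :
    ∀ (n : ℕ) (m : B → ℕ), (univ.filter (fun b => Odd (m b))).card ≤ n →
    (∀ b, Even (∑ b' ∈ (Set.toFinite {b' | F.Reachable b b'}).toFinset, m b')) →
    ∃ J : Finset (Sym2 B), (∀ e ∈ J, e ∈ F.edgeSet) ∧ ∀ b, Even (inc J b + m b) := by
  classical
  intro n
  induction n with
  | zero =>
    intro m h0 _
    refine ⟨∅, fun e he => absurd he (notMem_empty _), fun b => ?_⟩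
    have h1 : inc ∅ b = 0 := by unfold inc; simp
    rw [h1, zero_add]
    by_contra hodd
    have h2 : b ∈ univ.filter (fun b => Odd (m b)) :=
      mem_filter.2 ⟨mem_univ _, Nat.not_even_iff_odd.1 hodd⟩
    have := card_pos.2 ⟨b, h2⟩
    omega
  | succ n ih =>
    intro m hn hm
    by_cases hex : ∃ x, Odd (m x)
    · obtain ⟨x, hx⟩ := hex
      obtain ⟨y, hxy, hr, hy⟩ : ∃ y, x ≠ y ∧ F.Reachable x y ∧ Odd (m y) := by
        by_contra hcon
        push Not at hcon
        have h1 := hm x
        have hxm : x ∈ (Set.toFinite {b' | F.Reachable x b'}).toFinset :=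
          (Set.Finite.mem_toFinset _).2 (Reachable.refl x)
        rw [← add_sum_erase _ _ hxm] at h1
        have h2 : Even (∑ b' ∈ ((Set.toFinite {b' | F.Reachable x b'}).toFinset).erase x, m b') := by
          refine even_sum _ fun b' hb' => ?_
          obtain ⟨h3, h4⟩ := mem_erase.1 hb'
          have h5 : b' ∈ {b' | F.Reachable x b'} := (Set.Finite.mem_toFinset _).1 h4
          exact Nat.not_odd_iff_even.1 (hcon b' (Ne.symm h3) h5)
        rw [Nat.even_add] at h1
        exact (Nat.not_even_iff_odd.2 hx) (h1.2 h2)
      obtain ⟨p, hp⟩ := hr.exists_isPath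
      let m' : B → ℕ := fun b => m b + ((if b = x then 1 else 0) + (if b = y then 1 else 0))
      have hm'x : m' x = m x + 1 := by
        show m x + ((if x = x then 1 else 0) + (if x = y then 1 else 0)) = _
        rw [if_pos rfl, if_neg hxy]
      have hm'y : m' y = m y + 1 := by
        show m y + ((if y = x then 1 else 0) + (if y = y then 1 else 0)) = _
        rw [if_pos rfl, if_neg (Ne.symm hxy)]
      have hm'o : ∀ b, b ≠ x → b ≠ y → m' b = m b := by
        intro b h1 h2
        show m b + ((if b = x then 1 else 0) + (if b = y then 1 else 0)) = _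
        rw [if_neg h1, if_neg h2]
        rfl
      obtain ⟨J, hJ1, hJ2⟩ := ih m' (by
          have h1 : univ.filter (fun b => Odd (m' b)) ⊆
              (univ.filter (fun b => Odd (m b))).erase x := by
            intro b hb
            have hb' := (mem_filter.1 hb).2
            have hbx : b ≠ x := by
              rintro rfl
              rw [hm'x] at hb'
              exact (Nat.not_odd_iff_even.2 (Odd.add_one hx)) hb'
            have hby : b ≠ y := by
              rintro rfl
              rw [hm'y] at hb'
              exact (Nat.not_odd_iff_even.2 (Odd.add_one hy)) hb'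
            rw [hm'o b hbx hby] at hb'
            exact mem_erase.2 ⟨hbx, mem_filter.2 ⟨mem_univ _, hb'⟩⟩
          have h2 := card_le_card h1
          have h3 : x ∈ univ.filter (fun b => Odd (m b)) := mem_filter.2 ⟨mem_univ _, hx⟩
          rw [card_erase_of_mem h3] at h2
          omega) (by
          intro b
          have h1 : ∑ b' ∈ (Set.toFinite {b' | F.Reachable b b'}).toFinset, m' b' =
              ∑ b' ∈ (Set.toFinite {b' | F.Reachable b b'}).toFinset, m b' +
              ((if F.Reachable b x then 1 else 0) + (if F.Reachable b y then 1 else 0)) := by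
            show ∑ b' ∈ (Set.toFinite {b' | F.Reachable b b'}).toFinset,
              (m b' + ((if b' = x then 1 else 0) + (if b' = y then 1 else 0))) = _
            rw [sum_add_distrib, sum_add_distrib, sum_ite_eq', sum_ite_eq']
            simp only [Set.Finite.mem_toFinset, Set.mem_setOf_eq]
          rw [h1, Nat.even_add]
          refine iff_of_true (hm b) ?_
          by_cases h2 : F.Reachable b x
          · rw [if_pos h2, if_pos (h2.trans hr)]
            exact ⟨1, rfl⟩
          · rw [if_neg h2, if_neg (fun h3 => h2 (h3.trans hr.symm))]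
            exact ⟨0, rfl⟩)
      refine ⟨symmDiff J p.edges.toFinset, fun e he => ?_, fun b => ?_⟩
      · rw [Finset.mem_symmDiff] at he
        rcases he with ⟨he, _⟩ | ⟨he, _⟩
        · exact hJ1 e he
        · exact p.edges_subset_edgeSet (List.mem_toFinset.1 he)
      · have h1 := inc_symm J p.edges.toFinset b
        have h2 := hJ2 b
        have h3 := inc_trail hxy p hp.isTrail b
        obtain ⟨a, ha⟩ := h2
        by_cases h4 : b = x ∨ b = y
        · have h5 : m' b = m b + 1 := by
            rcases h4 with rfl | rfl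
            · exact hm'x
            · exact hm'y
          obtain ⟨c, hc⟩ := h3.2 h4
          rw [h5] at ha
          rw [← Nat.not_odd_iff_even]
          rintro ⟨f, hf⟩
          omega
        · have h5 : m' b = m b := by
            push Not at h4
            exact hm'o b h4.1 h4.2
          have h6 : Even (inc p.edges.toFinset b) :=
            Nat.not_odd_iff_even.1 fun h => h4 (h3.1 h)
          obtain ⟨c, hc⟩ := h6
          rw [h5] at ha
          rw [← Nat.not_odd_iff_even]
          rintro ⟨f, hf⟩
          omega
    · push Not at hex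
      refine ⟨∅, fun e he => absurd he (notMem_empty _), fun b => ?_⟩
      have h1 : inc ∅ b = 0 := by unfold inc; simp
      rw [h1, zero_add]
      exact Nat.not_odd_iff_even.1 (hex b)

/-- the number of edges between the classes `b` and `b'` -/
noncomputable def be {V E B : Type} (ends : E → Sym2 V) (cl : V → B) (b b' : B) : ℕ :=
  {e | ∃ u v, cl u = b ∧ cl v = b' ∧ ends e = s(u, v)}.ncard

theorem be_le {V E B : Type} [Fintype V] [Finite E] [DecidableEq B] (ends : E → Sym2 V)
    (cl : V → B) (b b' : B) : be ends cl b b' ≤ eb (mu ends) cl b b' := by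
  classical
  have := Fintype.ofFinite E
  unfold be eb
  have h1 : {e | ∃ u v, cl u = b ∧ cl v = b' ∧ ends e = s(u, v)} ⊆
      (((univ.filter (fun w => cl w = b)) ×ˢ (univ.filter (fun w => cl w = b'))).biUnion
        (fun x => univ.filter (fun e => ends e = s(x.1, x.2))) : Finset E) := by
    rintro e ⟨u, v, hu, hv, he⟩
    rw [mem_coe, mem_biUnion]
    exact ⟨(u, v), mem_product.2 ⟨mem_filter.2 ⟨mem_univ _, hu⟩, mem_filter.2 ⟨mem_univ _, hv⟩⟩,
      mem_filter.2 ⟨mem_univ _, he⟩⟩
  refine (Set.ncard_le_ncard h1 (Set.toFinite _)).trans ?_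
  rw [Set.ncard_coe_finset, ← sum_product']
  refine card_biUnion_le.trans (sum_le_sum fun x _ => ?_)
  unfold mu
  rw [Set.ncard_eq_toFinset_card']
  refine card_le_card fun e he => ?_
  rw [Set.mem_toFinset]
  exact (mem_filter.1 he).2

/-- The main theorem, with a graph `F` of pairs of classes joined by many edges. -/
theorem main {V E B : Type} [Finite V] [Finite E] [Finite B] (ends : E → Sym2 V) (r : ℕ)
    (cl : V → B) (F : SimpleGraph B) (hl : ∀ e, ¬ (ends e).IsDiag)
    (hr : ∀ v, {e | v ∈ ends e}.ncard = r)
    (htw : ∀ u v w, cl u = cl v → w ≠ u → w ≠ v → mu ends u w = mu ends v w)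
    (hF : ∀ b b', F.Adj b b' → r ≤ be ends cl b b')
    (hdeg : ∀ b, (F.neighborSet b).ncard ≤ {v | cl v = b}.ncard)
    (hev : ∀ b, Even {v | F.Reachable b (cl v)}.ncard) (k : ℕ) :
    ∃ X : Fin (k * r) → Set E, (∀ i v, ∃! e, e ∈ X i ∧ v ∈ ends e) ∧
      ∀ e, {i | e ∈ X i}.ncard = k := by
  classical
  have := Fintype.ofFinite V
  have := Fintype.ofFinite E
  have := Fintype.ofFinite B
  obtain ⟨J, hJ1, hJ2⟩ := exists_join F _ (sz cl) le_rfl (by
    intro b
    have h1 : ∑ b' ∈ (Set.toFinite {b' | F.Reachable b b'}).toFinset, sz cl b' =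
        {v | F.Reachable b (cl v)}.ncard := by
      have h2 : {v | F.Reachable b (cl v)}.ncard =
          (univ.filter (fun v => F.Reachable b (cl v))).card := by
        rw [Set.ncard_eq_toFinset_card']
        congr 1
        ext v
        simp
      rw [h2, card_eq_sum_card_fiberwise (f := cl)
        (t := (Set.toFinite {b' | F.Reachable b b'}).toFinset)]
      · refine sum_congr rfl fun b' hb' => ?_
        have h3' : b' ∈ {b' | F.Reachable b b'} := (Set.Finite.mem_toFinset _).1 hb'
        have h3 : F.Reachable b b' := h3'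
        unfold sz
        congr 1
        ext v
        simp only [mem_filter, mem_univ, true_and]
        constructor
        · intro h
          exact ⟨by rw [h]; exact h3, h⟩
        · exact fun h => h.2
      · intro v hv
        have h3 := (mem_filter.1 (mem_coe.1 hv)).2
        rw [mem_coe, Set.Finite.mem_toFinset]
        exact h3
    rw [h1]
    exact hev b)
  have hJd : ∀ b, s(b, b) ∉ J := fun b h => (F.mem_edgeSet.1 (hJ1 _ h)).ne rfl
  have hrow : ∀ b, ∑ b', (if s(b, b') ∈ J then 1 else 0) = inc J b := by
    intro b
    unfold inc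
    rw [← card_filter]
    refine card_bij (fun b' _ => s(b, b')) ?_ ?_ ?_
    · intro b' hb'
      exact mem_filter.2 ⟨(mem_filter.1 hb').2, Sym2.mem_mk_left _ _⟩
    · intro b' _ b'' _ h
      exact Sym2.congr_right.1 h
    · intro e he
      obtain ⟨h1, h2⟩ := mem_filter.1 he
      obtain ⟨b', hb'⟩ := Sym2.mem_iff_exists.1 h2
      refine ⟨b', mem_filter.2 ⟨mem_univ _, ?_⟩, hb'.symm⟩
      rw [← hb']
      exact h1
  have hle : ∀ b, inc J b ≤ sz cl b := by
    intro b
    have h1 : sz cl b = {v | cl v = b}.ncard := by
      unfold sz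
      rw [Set.ncard_eq_toFinset_card']
      congr 1
      ext v
      simp
    rw [h1]
    refine le_trans ?_ (hdeg b)
    rw [← hrow, ← card_filter, Set.ncard_eq_toFinset_card']
    refine card_le_card fun b' hb' => ?_
    rw [Set.mem_toFinset]
    exact F.mem_edgeSet.1 (hJ1 _ (mem_filter.1 hb').2)
  obtain ⟨M, hM1, _, hM3⟩ := cover (mu ends) (mu_symm ends) (mu_self ends hl) k r
    (fun u => by rw [mu_row ends hl]; exact hr u) cl htw
    (fun _ b b' => if s(b, b') ∈ J then 1 else 0) (fun _ b b' => by rw [Sym2.eq_swap])
    (fun _ b => if_neg (hJd b)) (inc J) (fun b => (sz cl b - inc J b) / 2)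
    (fun _ b => hrow b) (fun b => by
      have h1 := hle b
      obtain ⟨c, hc⟩ := hJ2 b
      omega) (fun b b' => by
      rw [sum_const, card_univ, Fintype.card_fin, smul_eq_mul]
      by_cases h : s(b, b') ∈ J
      · rw [if_pos h, mul_one]
        exact Nat.mul_le_mul_left k ((hF b b' (F.mem_edgeSet.1 (hJ1 _ h))).trans
          (be_le ends cl b b'))
      · rw [if_neg h]
        simp)
  exact edges ends (k * r) k hl M hM1 hM3

end Pool.Agent.R448.TW
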