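import Mathlib

set_option autoImplicit false

/-!
Amalgamated edge colourings: splitting off one vertex (Hall's theorem).
-/

namespace Pool.Agent.R448.TW

open Finset

/-- `c i y z`: the number of edges of colour `i` between `y` and `z` (twice the number of loops if
`y = z`); the amalgamated vertex `y` stands for `σ y` vertices; `Q` are the multiplicities of the
final graph. -/
structure St {ι W : Type} [Fintype ι] [Fintype W] [DecidableEq W] (Q : W → W → ℤ) (σ : W → ℤ)
    (c : ι → W → W → ℤ) : Prop where
  nonneg : ∀ i y z, 0 ≤ c i y z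
  symm : ∀ i y z, c i y z = c i z y
  even : ∀ i y, Even (c i y y)
  row : ∀ i y, ∑ z, c i y z = σ y
  tot : ∀ y z, ∑ i, c i y z = if y = z then Q y y * σ y * (σ y - 1) else Q y z * σ y * σ z

/-- Hall's theorem: choosing a `1/(s+1)` fraction. -/
theorem choose {ι W : Type} [Fintype ι] [Fintype W] [DecidableEq W] [DecidableEq ι]
    (a : ι → W → ℕ) (s : ℕ) (t : W → ℕ)
    (hrow : ∀ i, ∑ z, a i z = s + 1) (hcol : ∀ z, ∑ i, a i z = (s + 1) * t z) :
    ∃ f : ι → W, (∀ i, 0 < a i (f i)) ∧ ∀ z, (univ.filter (fun i => f i = z)).card = t z := by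
  classical
  let N : ι → Finset (Σ z : W, Fin (t z)) := fun i =>
    (univ.filter (fun z => 0 < a i z)).sigma (fun _ => univ)
  have hall : ∀ S : Finset ι, S.card ≤ (S.biUnion N).card := by
    intro S
    have h1 : S.biUnion N = (S.biUnion (fun i => univ.filter (fun z => 0 < a i z))).sigma
        (fun _ => univ) := by
      ext ⟨z, j⟩
      simp [N]
    rw [h1, card_sigma]
    simp only [card_univ, Fintype.card_fin]
    have h2 : (s + 1) * S.card ≤ (s + 1) *
        ∑ z ∈ S.biUnion (fun i => univ.filter (fun z => 0 < a i z)), t z := by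
      calc (s + 1) * S.card = ∑ i ∈ S, ∑ z, a i z := by
            rw [sum_congr rfl (fun i _ => hrow i), sum_const, smul_eq_mul, mul_comm]
        _ = ∑ i ∈ S, ∑ z ∈ S.biUnion (fun i => univ.filter (fun z => 0 < a i z)), a i z := by
            refine sum_congr rfl fun i hi => ?_
            symm
            refine sum_subset (subset_univ _) fun z _ hz => ?_
            by_contra hne
            exact hz (mem_biUnion.2 ⟨i, hi, mem_filter.2 ⟨mem_univ _, Nat.pos_of_ne_zero hne⟩⟩)
        _ = ∑ z ∈ S.biUnion (fun i => univ.filter (fun z => 0 < a i z)), ∑ i ∈ S, a i z :=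
            sum_comm
        _ ≤ ∑ z ∈ S.biUnion (fun i => univ.filter (fun z => 0 < a i z)), (s + 1) * t z := by
            refine sum_le_sum fun z _ => ?_
            rw [← hcol z]
            exact sum_le_sum_of_subset (subset_univ _)
        _ = _ := by rw [mul_sum]
    exact Nat.le_of_mul_le_mul_left h2 (Nat.succ_pos s)
  obtain ⟨g, hg, hgN⟩ := (Finset.all_card_le_biUnion_card_iff_exists_injective N).1 hall
  have hcard : Fintype.card ι = Fintype.card (Σ z : W, Fin (t z)) := by
    rw [Fintype.card_sigma]
    simp only [Fintype.card_fin]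
    have h1 : (s + 1) * Fintype.card ι = (s + 1) * ∑ z, t z := by
      calc (s + 1) * Fintype.card ι = ∑ i : ι, ∑ z, a i z := by
            rw [sum_congr rfl (fun i _ => hrow i), sum_const, smul_eq_mul, mul_comm, card_univ]
        _ = ∑ z, ∑ i, a i z := sum_comm
        _ = _ := by rw [sum_congr rfl (fun z _ => hcol z), mul_sum]
    exact Nat.eq_of_mul_eq_mul_left (Nat.succ_pos s) h1
  have hbij : Function.Bijective g := (Fintype.bijective_iff_injective_and_card g).2 ⟨hg, hcard⟩
  refine ⟨fun i => (g i).1, fun i => ?_, fun z => ?_⟩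
  · have := hgN i
    simp only [N, mem_sigma, mem_filter, mem_univ, true_and, and_true] at this
    exact this
  · have h1 : (univ.filter (fun i => (g i).1 = z)).card = (univ : Finset (Fin (t z))).card := by
      symm
      refine card_bij (fun j _ => (Equiv.ofBijective g hbij).symm ⟨z, j⟩) ?_ ?_ ?_
      · intro j _
        rw [mem_filter]
        refine ⟨mem_univ _, ?_⟩
        have := (Equiv.ofBijective g hbij).apply_symm_apply ⟨z, j⟩
        rw [Equiv.ofBijective_apply] at this
        rw [this]
      · intro j _ j' _ h
        have := (Equiv.ofBijective g hbij).symm.injective h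
        simpa using this
      · intro i hi
        rw [mem_filter] at hi
        obtain ⟨_, hi⟩ := hi
        subst hi
        refine ⟨(g i).2, mem_univ _, ?_⟩
        rw [Equiv.symm_apply_eq, Equiv.ofBijective_apply]
    rw [h1, card_univ, Fintype.card_fin]

/-- indicator -/
def dl {W : Type} [DecidableEq W] (x y : W) : ℤ := if x = y then 1 else 0

theorem peel {ι W : Type} [Fintype ι] [Fintype W] [DecidableEq W] [DecidableEq ι] (Q : W → W → ℤ)
    (hQ0 : ∀ y z, 0 ≤ Q y z) (hQs : ∀ y z, Q y z = Q z y) (σ : W → ℤ) (hσ : ∀ y, 0 ≤ σ y)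
    (c : ι → W → W → ℤ) (h : St Q σ c)
    (x r : W) (hx : σ x = 0) (hr : 2 ≤ σ r) (htw : ∀ z, Q x z = Q r z) :
    ∃ c' : ι → W → W → ℤ, St Q (fun y => σ y + dl y x - dl y r) c' := by
  have hxr : x ≠ r := by rintro rfl; omega
  have hcx : ∀ i z, c i x z = 0 := by
    intro i z
    have h1 := h.row i x
    rw [hx] at h1
    exact (sum_eq_zero_iff_of_nonneg (fun z _ => h.nonneg i x z)).1 h1 z (mem_univ _)
  obtain ⟨s, hs⟩ : ∃ s : ℕ, σ r = (s : ℤ) + 1 := ⟨(σ r - 1).toNat, by omega⟩
  have hs1 : 1 ≤ s := by omega
  let t : W → ℕ := fun z => if z = r then (Q r r * s).toNat else (Q r z * σ z).toNat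
  have ht : ∀ z, (t z : ℤ) = if z = r then Q r r * s else Q r z * σ z := by
    intro z
    by_cases hz : z = r
    · simp only [t, if_pos hz]
      exact Int.toNat_of_nonneg (mul_nonneg (hQ0 _ _) (by positivity))
    · simp only [t, if_neg hz]
      exact Int.toNat_of_nonneg (mul_nonneg (hQ0 _ _) (hσ _))
  obtain ⟨f, hf1, hf2⟩ := choose (fun i z => (c i r z).toNat) s t (by
      intro i
      have h1 := h.row i r
      zify
      rw [← hs, ← h1]
      exact sum_congr rfl fun z _ => Int.toNat_of_nonneg (h.nonneg i r z)) (by
      intro z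
      have h1 := h.tot r z
      zify
      rw [ht z, sum_congr rfl fun i _ => Int.toNat_of_nonneg (h.nonneg i r z), h1]
      by_cases hz : z = r
      · rw [if_pos hz, if_pos hz.symm, hs]; ring
      · rw [if_neg hz, if_neg (Ne.symm hz), hs]; ring)
  have hfp : ∀ i, 1 ≤ c i r (f i) := by
    intro i
    have := hf1 i
    omega
  have hfx : ∀ i, f i ≠ x := by
    intro i hi
    have h1 := hfp i
    rw [hi, h.symm, hcx] at h1
    omega
  have hfr : ∀ i, f i = r → 2 ≤ c i r r := by
    intro i hi
    have h1 := hfp i
    rw [hi] at h1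
    obtain ⟨a, ha⟩ := h.even i r
    omega
  have hcnt : ∀ z, ∑ i, dl z (f i) = if z = r then Q r r * s else Q r z * σ z := by
    intro z
    rw [← ht z, ← hf2 z, card_filter]
    push_cast
    refine sum_congr rfl fun i _ => ?_
    unfold dl
    by_cases hz : z = f i
    · rw [if_pos hz, if_pos hz.symm]
    · rw [if_neg hz, if_neg (Ne.symm hz)]
  have dsum : ∀ a : W, ∑ z, dl z a = 1 := by
    intro a
    unfold dl
    simp
  refine ⟨fun i y z => c i y z + (dl y x - dl y r) * dl z (f i) + dl y (f i) * (dl z x - dl z r),
    ?_, ?_, ?_, ?_, ?_⟩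
  · -- nonneg
    intro i y z
    have h0 := h.nonneg i y z
    have h1 := hfp i
    have h2 := hfx i
    show 0 ≤ c i y z + (dl y x - dl y r) * dl z (f i) + dl y (f i) * (dl z x - dl z r)
    unfold dl
    by_cases hyr : y = r
    · have hyx : y ≠ x := by rw [hyr]; exact hxr.symm
      rw [if_neg hyx, if_pos hyr]
      by_cases hzf : z = f i
      · rw [if_pos hzf]
        have hzx : z ≠ x := by rw [hzf]; exact h2
        rw [if_neg hzx]
        by_cases hzr : z = r
        · have h3 : f i = r := by rw [← hzf, hzr]
          have h4 := hfr i h3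
          rw [if_pos hzr, h3, if_pos hyr, hyr, hzr]
          omega
        · have h3 : y ≠ f i := by rw [hyr, ← hzf]; exact Ne.symm hzr
          rw [if_neg hzr, if_neg h3, hyr, hzf]
          omega
      · rw [if_neg hzf]
        by_cases hyf : y = f i
        · rw [if_pos hyf]
          have hzr : z ≠ r := by rw [← hyr, hyf]; exact hzf
          rw [if_neg hzr]
          by_cases hzx : z = x
          · rw [if_pos hzx]; omega
          · rw [if_neg hzx]; omega
        · rw [if_neg hyf]; omega
    · rw [if_neg hyr]
      by_cases hyf : y = f i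
      · have hyx : y ≠ x := by rw [hyf]; exact h2
        rw [if_pos hyf, if_neg hyx]
        by_cases hzr : z = r
        · have h3 : 1 ≤ c i y z := by rw [hyf, hzr, h.symm]; exact h1
          have hzx : z ≠ x := by rw [hzr]; exact hxr.symm
          rw [if_pos hzr, if_neg hzx]
          omega
        · rw [if_neg hzr]
          by_cases hzx : z = x
          · rw [if_pos hzx]; omega
          · rw [if_neg hzx]; omega
      · rw [if_neg hyf]
        by_cases hyx : y = x
        · rw [if_pos hyx]
          by_cases hzf : z = f i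
          · rw [if_pos hzf]; omega
          · rw [if_neg hzf]; omega
        · rw [if_neg hyx]; omega
  · -- symm
    intro i y z
    show c i y z + (dl y x - dl y r) * dl z (f i) + dl y (f i) * (dl z x - dl z r) =
      c i z y + (dl z x - dl z r) * dl y (f i) + dl z (f i) * (dl y x - dl y r)
    rw [h.symm i y z]
    ring
  · -- even
    intro i y
    show Even (c i y y + (dl y x - dl y r) * dl y (f i) + dl y (f i) * (dl y x - dl y r))
    obtain ⟨a, ha⟩ := h.even i y
    exact ⟨a + (dl y x - dl y r) * dl y (f i), by rw [ha]; ring⟩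
  · -- row
    intro i y
    show ∑ z, (c i y z + (dl y x - dl y r) * dl z (f i) + dl y (f i) * (dl z x - dl z r)) = _
    rw [sum_add_distrib, sum_add_distrib, ← mul_sum, ← mul_sum, sum_sub_distrib, dsum, dsum, dsum,
      h.row i y]
    ring
  · -- tot
    intro y z
    show ∑ i, (c i y z + (dl y x - dl y r) * dl z (f i) + dl y (f i) * (dl z x - dl z r)) = _
    rw [sum_add_distrib, sum_add_distrib, ← mul_sum, ← sum_mul, hcnt, hcnt, h.tot y z]
    have hQxr : Q x r = Q r r := htw r
    have hQrx : Q r x = Q r r := by rw [hQs, hQxr]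
    have hQxx : Q x x = Q r r := by rw [htw x, hQrx]
    unfold dl
    by_cases hyz : y = z
    · subst hyz
      rw [if_pos rfl, if_pos rfl]
      by_cases hyr : y = r
      · subst hyr
        rw [if_pos rfl, if_pos rfl, if_neg hxr.symm, hs]
        ring
      · rw [if_neg hyr, if_neg hyr]
        by_cases hyx : y = x
        · subst hyx
          rw [if_pos rfl, hx]
          ring
        · rw [if_neg hyx]
          ring
    · rw [if_neg hyz, if_neg hyz]
      by_cases hyr : y = r
      · subst hyr
        rw [if_pos rfl, if_pos rfl, if_neg hxr.symm, if_neg (Ne.symm hyz), if_neg (Ne.symm hyz)]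
        by_cases hzx : z = x
        · subst hzx
          rw [if_pos rfl, hx, hs, hQrx]
          ring
        · rw [if_neg hzx, hs]
          ring
      · rw [if_neg hyr, if_neg hyr]
        by_cases hyx : y = x
        · subst hyx
          rw [if_pos rfl, hx]
          by_cases hzr : z = r
          · subst hzr
            rw [if_pos rfl, if_pos rfl, if_neg (Ne.symm hyz), hs, hQxr]
            ring
          · rw [if_neg hzr, if_neg hzr, if_neg (Ne.symm hyz), htw z]
            ring
        · rw [if_neg hyx]
          by_cases hzr : z = r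
          · subst hzr
            rw [if_pos rfl, if_pos rfl, if_neg hxr.symm, hs, hQs z y]
            ring
          · rw [if_neg hzr, if_neg hzr]
            by_cases hzx : z = x
            · subst hzx
              rw [if_pos rfl, hx, hQs y z, htw y]
              ring
            · rw [if_neg hzx]
              ring

end Pool.Agent.R448.TW
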