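import Pool.Agent.R448.TW.Join

set_option autoImplicit false

/-!
Twin classes with at least `√r` vertices; perfect pairings into twins.
-/

namespace Pool.Agent.R448.TW

open Finset SimpleGraph

/-- Twins. -/
def Twins {V E : Type} [Finite E] (ends : E → Sym2 V) (u v : V) : Prop :=
  ∀ w, w ≠ u → w ≠ v → mu ends u w = mu ends v w

theorem Twins.trans {V E : Type} [Finite E] {ends : E → Sym2 V} {u v w : V}
    (h1 : Twins ends u v) (h2 : Twins ends v w) : Twins ends u w := by
  intro x hxu hxw
  by_cases huv : u = v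
  · subst huv; exact h2 x hxu hxw
  by_cases hvw : v = w
  · subst hvw; exact h1 x hxu hxw
  by_cases huw : u = w
  · rw [huw]
  by_cases hxv : x = v
  · subst hxv
    rw [mu_symm ends u x, mu_symm ends w x]
    have h3 := h2 u (fun h => huv h) huw
    have h4 := h1 w (fun h => huw h.symm) (fun h => hvw h.symm)
    rw [h3, mu_symm ends w u, h4]
  · rw [h1 x hxu hxv, h2 x hxv hxw]

/-- the twin relation -/
def tw {V E : Type} [Finite E] (ends : E → Sym2 V) : Setoid V where
  r := Twins ends
  iseqv := ⟨fun _ _ _ _ => rfl, fun h w h1 h2 => (h w h2 h1).symm, fun h1 h2 => h1.trans h2⟩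

/-- If every vertex has at least `√r` twins (including itself). -/
theorem large {V E : Type} [Finite V] [Finite E] (ends : E → Sym2 V) (r : ℕ)
    (hl : ∀ e, ¬ (ends e).IsDiag) (hr : ∀ v, {e | v ∈ ends e}.ncard = r)
    (hodd : ∀ X : Set V, Odd X.ncard → ∃ e, ∃ u ∈ X, ∃ w, w ∉ X ∧ ends e = s(u, w))
    (htw : ∀ v, r ≤ {w | Twins ends v w}.ncard ^ 2) (k : ℕ) :
    ∃ X : Fin (k * r) → Set E, (∀ i v, ∃! e, e ∈ X i ∧ v ∈ ends e) ∧
      ∀ e, {i | e ∈ X i}.ncard = k := by
  classical
  have := Fintype.ofFinite V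
  have := Fintype.ofFinite E
  let B := Quotient (tw ends)
  let cl : V → B := Quotient.mk (tw ends)
  have : Fintype B := Fintype.ofFinite B
  have hcl : ∀ u v, cl u = cl v ↔ Twins ends u v := fun u v => Quotient.eq (r := tw ends)
  have htw' : ∀ u v w, cl u = cl v → w ≠ u → w ≠ v → mu ends u w = mu ends v w :=
    fun u v w h => (hcl u v).1 h w
  have hsz : ∀ u, {w | Twins ends u w}.ncard = {w | cl w = cl u}.ncard := by
    intro u
    congr 1
    ext w
    show Twins ends u w ↔ cl w = cl u
    rw [eq_comm, hcl]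
  have hrow : ∀ u, ∑ v, mu ends u v = r := fun u => by rw [mu_row ends hl]; exact hr u
  let F : SimpleGraph B :=
    { Adj := fun b b' => b ≠ b' ∧ ∃ u v, cl u = b ∧ cl v = b' ∧ 0 < mu ends u v
      symm := ⟨fun b b' h => ⟨h.1.symm, by
        obtain ⟨_, u, v, hu, hv, h⟩ := h
        exact ⟨v, u, hv, hu, by rw [mu_symm]; exact h⟩⟩⟩
      loopless := ⟨fun b h => h.1 rfl⟩ }
  have hFall : ∀ b b', F.Adj b b' → ∀ u v, cl u = b → cl v = b' → 0 < mu ends u v := by
    rintro b b' ⟨hb, u', v', hu', hv', h⟩ u v hu hv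
    rw [twin_block (mu ends) (mu_symm ends) cl htw' (y := u) (z := v) (y' := u') (z' := v')
      (by rintro rfl; exact hb (hu.symm.trans hv)) (by rintro rfl; exact hb (hu'.symm.trans hv'))
      (hu.trans hu'.symm) (hv.trans hv'.symm)]
    exact h
  have hcnt : ∀ b : B, {w | cl w = b}.ncard = (univ.filter (fun w => cl w = b)).card := by
    intro b
    rw [Set.ncard_eq_toFinset_card']
    congr 1
    ext v
    simp
  have hbig : ∀ b : B, r ≤ (univ.filter (fun w => cl w = b)).card ^ 2 := by
    intro b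
    obtain ⟨u, rfl⟩ := Quotient.exists_rep b
    have h1 := htw u
    rw [hsz u] at h1
    rw [← hcnt]
    exact h1
  obtain ⟨t, ht1, ht2⟩ : ∃ t, r ≤ t ^ 2 ∧ ∀ m, r ≤ m ^ 2 → t ≤ m := by
    have hex : ∃ t, r ≤ t ^ 2 := ⟨r, by nlinarith [Nat.zero_le r, Nat.le_self_pow two_ne_zero r]⟩
    exact ⟨Nat.find hex, Nat.find_spec hex, fun m hm => Nat.find_min' hex hm⟩
  refine main ends r cl F hl hr htw' ?_ ?_ ?_ k
  · intro b b' hbb
    have hall := hFall b b' hbb
    have h1 : r ≤ (univ.filter (fun w => cl w = b)).card * (univ.filter (fun w => cl w = b')).card := by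
      have h2 := ht2 _ (hbig b)
      have h3 := ht2 _ (hbig b')
      calc r ≤ t ^ 2 := ht1
        _ = t * t := by ring
        _ ≤ _ := Nat.mul_le_mul h2 h3
    refine h1.trans ?_
    rw [← card_product]
    have hch : ∀ x : V × V, ∃ e : Option E, (x.1 ∈ univ.filter (fun w => cl w = b) →
        x.2 ∈ univ.filter (fun w => cl w = b') → ∃ e', e = some e' ∧ ends e' = s(x.1, x.2)) := by
      intro x
      by_cases h2 : 0 < mu ends x.1 x.2
      · obtain ⟨e, he⟩ := (Set.ncard_pos (Set.toFinite _)).1 h2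
        exact ⟨some e, fun _ _ => ⟨e, rfl, he⟩⟩
      · refine ⟨none, fun h3 h4 => absurd (hall x.1 x.2 (mem_filter.1 h3).2 (mem_filter.1 h4).2) h2⟩
    choose g hg using hch
    have h2 : (((univ.filter (fun w => cl w = b)) ×ˢ (univ.filter (fun w => cl w = b'))).image g).card
        = ((univ.filter (fun w => cl w = b)) ×ˢ (univ.filter (fun w => cl w = b'))).card := by
      refine card_image_of_injOn fun x hx y hy hxy => ?_
      obtain ⟨hx1, hx2⟩ := mem_product.1 (mem_coe.1 hx)
      obtain ⟨hy1, hy2⟩ := mem_product.1 (mem_coe.1 hy)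
      obtain ⟨e, he1, he2⟩ := hg x hx1 hx2
      obtain ⟨e', he1', he2'⟩ := hg y hy1 hy2
      have h3 : e = e' := by
        have h4 : some e = some e' := by rw [← he1, ← he1']; exact hxy
        exact Option.some.inj h4
      subst h3
      rw [he2] at he2'
      rcases Sym2.eq_iff.1 he2' with ⟨h5, h6⟩ | ⟨h5, h6⟩
      · exact Prod.ext h5 h6
      · exfalso
        apply hbb.1
        rw [← (mem_filter.1 hx1).2, ← (mem_filter.1 hy2).2, h5]
    rw [← h2]
    unfold be
    have h3 : ((((univ.filter (fun w => cl w = b)) ×ˢ (univ.filter (fun w => cl w = b'))).image g :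
        Finset (Option E)) : Set (Option E)) ⊆
        some '' {e | ∃ u v, cl u = b ∧ cl v = b' ∧ ends e = s(u, v)} := by
      intro o ho
      obtain ⟨x, hx, rfl⟩ := mem_image.1 (mem_coe.1 ho)
      obtain ⟨hx1, hx2⟩ := mem_product.1 hx
      obtain ⟨e, he1, he2⟩ := hg x hx1 hx2
      exact ⟨e, ⟨x.1, x.2, (mem_filter.1 hx1).2, (mem_filter.1 hx2).2, he2⟩, he1.symm⟩
    have h4 := Set.ncard_le_ncard h3 (Set.toFinite _)
    rw [Set.ncard_coe_finset, Set.ncard_image_of_injective _ (Option.some_injective E)] at h4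
    exact h4
  · intro b
    obtain ⟨u, rfl⟩ := Quotient.exists_rep b
    show (F.neighborSet (cl u)).ncard ≤ {v | cl v = cl u}.ncard
    rw [hcnt]
    have h1 : (F.neighborSet (cl u)).ncard = (univ.filter (fun b' => F.Adj (cl u) b')).card := by
      rw [Set.ncard_eq_toFinset_card']
      congr 1
      ext v
      simp
    rw [h1]
    have h2 : (univ.filter (fun b' => F.Adj (cl u) b')).card * t ≤ r := by
      calc (univ.filter (fun b' => F.Adj (cl u) b')).card * t =
            ∑ b' ∈ univ.filter (fun b' => F.Adj (cl u) b'), t := by rw [sum_const, smul_eq_mul]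
        _ ≤ ∑ b' ∈ univ.filter (fun b' => F.Adj (cl u) b'),
            ∑ v ∈ univ.filter (fun v => cl v = b'), mu ends u v := by
            refine sum_le_sum fun b' hb' => ?_
            have hadj := (mem_filter.1 hb').2
            calc t ≤ (univ.filter (fun v => cl v = b')).card := ht2 _ (hbig b')
              _ = ∑ v ∈ univ.filter (fun v => cl v = b'), 1 := by rw [card_eq_sum_ones]
              _ ≤ _ := sum_le_sum fun v hv =>
                hFall _ _ hadj u v rfl (mem_filter.1 hv).2
        _ ≤ ∑ b', ∑ v ∈ univ.filter (fun v => cl v = b'), mu ends u v :=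
            sum_le_sum_of_subset (subset_univ _)
        _ = r := by rw [sum_fiberwise univ cl (fun v => mu ends u v)]; exact hrow u
    refine le_trans ?_ (ht2 _ (hbig (cl u)))
    rcases Nat.eq_zero_or_pos t with h0 | h0
    · have hr0 : r = 0 := by rw [h0] at ht1; simpa using ht1
      rw [h0, Nat.le_zero, card_eq_zero, filter_eq_empty_iff]
      intro b' _ hadj
      obtain ⟨_, x, y, _, _, hxy⟩ := hadj
      have h3 := hrow x
      rw [hr0] at h3
      have h4 := (sum_eq_zero_iff.1 h3) y (mem_univ _)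
      omega
    · have h3 : (univ.filter (fun b' => F.Adj (cl u) b')).card * t ≤ t * t := by
        calc _ ≤ r := h2
          _ ≤ t ^ 2 := ht1
          _ = t * t := by ring
      exact Nat.le_of_mul_le_mul_right h3 h0
  · intro b
    by_contra hcon
    obtain ⟨e, u, hu, w, hw, he⟩ := hodd _ (Nat.not_even_iff_odd.1 hcon)
    apply hw
    have hu' : F.Reachable b (cl u) := hu
    show F.Reachable b (cl w)
    by_cases h1 : cl u = cl w
    · rw [← h1]; exact hu'
    · have h2 : F.Adj (cl u) (cl w) := by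
        refine ⟨h1, u, w, rfl, rfl, ?_⟩
        exact (Set.ncard_pos (Set.toFinite _)).2 ⟨e, he⟩
      exact hu'.trans h2.reachable

/-- Perfect pairings into twins. -/
theorem pairs {V E : Type} [Finite V] [Finite E] (ends : E → Sym2 V) (r : ℕ)
    (hl : ∀ e, ¬ (ends e).IsDiag) (hr : ∀ v, {e | v ∈ ends e}.ncard = r)
    (τ : V → V) (h1 : ∀ v, τ (τ v) = v) (h2 : ∀ v, τ v ≠ v) (htw : ∀ v, Twins ends v (τ v))
    (k : ℕ) : ∃ X : Fin (k * r) → Set E, (∀ i v, ∃! e, e ∈ X i ∧ v ∈ ends e) ∧
      ∀ e, {i | e ∈ X i}.ncard = k := by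
  classical
  have hcl : ∀ u v, s(u, τ u) = s(v, τ v) → v = u ∨ v = τ u := by
    intro u v h
    rcases Sym2.eq_iff.1 h with ⟨h3, _⟩ | ⟨_, h4⟩
    · exact Or.inl h3.symm
    · exact Or.inr h4.symm
  refine main ends r (fun v => s(v, τ v)) ⊥ hl hr ?_ (fun b b' h => absurd h (by simp)) ?_ ?_ k
  · intro u v w huv hwu hwv
    rcases hcl u v huv with rfl | rfl
    · rfl
    · exact htw u w hwu hwv
  · intro b
    simp
  · intro b
    have h3 : {v | (⊥ : SimpleGraph (Sym2 V)).Reachable b s(v, τ v)} = {v | s(v, τ v) = b} := by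
      ext v
      show (⊥ : SimpleGraph (Sym2 V)).Reachable b s(v, τ v) ↔ s(v, τ v) = b
      rw [reachable_bot, eq_comm]
    rw [h3]
    by_cases h4 : ∃ u, s(u, τ u) = b
    · obtain ⟨u, rfl⟩ := h4
      have h5 : {v | s(v, τ v) = s(u, τ u)} = {u, τ u} := by
        ext v
        simp only [Set.mem_setOf_eq, Set.mem_insert_iff, Set.mem_singleton_iff]
        constructor
        · intro h; exact hcl u v h.symm
        · rintro (rfl | rfl)
          · rfl
          · rw [h1, Sym2.eq_swap]
      rw [h5, Set.ncard_pair (h2 u).symm]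
      exact even_two
    · push Not at h4
      have h5 : {v | s(v, τ v) = b} = ∅ := by
        ext v
        simp only [Set.mem_setOf_eq, Set.mem_empty_iff_false, iff_false]
        exact h4 v
      rw [h5, Set.ncard_empty]
      exact Even.zero

end Pool.Agent.R448.TW
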